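import Pool.Agent.H479.P.Tf

open MeasureTheory Filter Topology

namespace H479.P

open H479.U hiding mz_nonneg
open Pool.Agent.Y744 TH803TW

/-- the predicted value of `∫ R F` -/
noncomputable def Lam (R : ℝ → ℝ) : ℝ := R 0 + ∫ α, R α * min |α| 1

section

variable {κ : ℝ} {R : ℝ → ℝ}

lemma evp_self (hR : CE κ R) : H370.A2.evp R = R := by
  funext x
  unfold H370.A2.evp
  rw [hR.even]
  ring

lemma RR_ct (hR : CE κ R) {μ : ℝ} (hμ : κ < μ) (x : ℝ) : H370.A2.RR R μ x = ct R x := by
  rw [H370.A2.RR_eq hR.cont (fun y hy => hR.supp y (by linarith)), evp_self hR]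
  unfold ct
  refine integral_congr_ae (Eventually.of_forall fun α => ?_)
  show R α * Real.cos (2 * Real.pi * α * x) = R α * Real.cos (2 * Real.pi * x * α)
  congr 2
  ring

lemma sq_dec {D : ℝ} (hdec : ∀ x, |ct R x| ≤ D / (1 + x ^ 2) ^ 2) (x : ℝ) :
    |ct R x| * x ^ 2 ≤ D := by
  have hD : 0 ≤ D := by
    have := (abs_nonneg _).trans (hdec 0)
    simpa using this
  calc |ct R x| * x ^ 2 ≤ D / (1 + x ^ 2) ^ 2 * x ^ 2 :=
        mul_le_mul_of_nonneg_right (hdec x) (sq_nonneg _)
    _ ≤ D := by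
        rw [div_mul_eq_mul_div, div_le_iff₀ (by positivity)]
        refine mul_le_mul_of_nonneg_left ?_ hD
        nlinarith [sq_nonneg x, sq_nonneg (x ^ 2)]

lemma ct_inv (hR : CE κ R) {D : ℝ} (hdec : ∀ x, |ct R x| ≤ D / (1 + x ^ 2) ^ 2) (β : ℝ) :
    ∫ x, ct R x * Real.cos (2 * Real.pi * x * β) = R β := by
  have h1 := H370.A2.RR_inv (μ := κ + 1) hR.cont (fun y hy => hR.supp y (by linarith)) (C := D)
    (fun x => by rw [RR_ct hR (by linarith)]; exact sq_dec hdec x) β
  rw [evp_self hR] at h1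
  rw [← h1]
  refine integral_congr_ae (Eventually.of_forall fun x => ?_)
  show ct R x * _ = H370.A2.RR R (κ + 1) x * _
  rw [RR_ct hR (by linarith)]

lemma ct_integrable (hR : CE κ R) {D : ℝ} (hdec : ∀ x, |ct R x| ≤ D / (1 + x ^ 2) ^ 2) :
    Integrable (ct R) := by
  have h1 := H370.A2.RR_integrable (μ := κ + 1) hR.cont (fun y hy => hR.supp y (by linarith))
    (C := D) (fun x => by rw [RR_ct hR (by linarith)]; exact sq_dec hdec x)
  refine h1.congr (Eventually.of_forall fun x => ?_)
  exact RR_ct hR (by linarith) x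

/-- the main term in terms of the transform, any support -/
theorem main_gen (hR : CE κ R) {D : ℝ} (hdec : ∀ x, |ct R x| ≤ D / (1 + x ^ 2) ^ 2) :
    ct R 0 + ∫ y, ct R y * gd y = Lam R := by
  have hRi := ct_integrable hR hdec
  have hcc : Continuous (ct R) := by
    have h1 := H370.A2.RR_cont (μ := κ + 1) hR.cont
    have h2 : ct R = H370.A2.RR R (κ + 1) := funext fun x => (RR_ct hR (by linarith) x).symm
    rw [h2]
    exact h1
  have hK : ∫ x, ct R x * Real.sinc (Real.pi * x) ^ 2 = ∫ β in (-1 : ℝ)..1, (1 - |β|) * R β := by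
    have h1 : ∫ x, ct R x * Real.sinc (Real.pi * x) ^ 2 =
        ∫ x, ∫ β in Set.Ioc (-1 : ℝ) 1, ct R x * ((1 - |β|) * Real.cos (2 * Real.pi * x * β)) := by
      refine integral_congr_ae ?_
      have h0 : ∀ᵐ x : ℝ, x ≠ 0 := by
        rw [ae_iff]
        simp
      filter_upwards [h0] with x hx
      have hpi := Real.pi_pos
      rw [Real.sinc_of_ne_zero (by positivity), ← H370.A2.fejer hx,
        intervalIntegral.integral_of_le (by norm_num), integral_const_mul]
    have hint : Integrable (Function.uncurry fun x β : ℝ =>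
        ct R x * ((1 - |β|) * Real.cos (2 * Real.pi * x * β)))
        (volume.prod (volume.restrict (Set.Ioc (-1 : ℝ) 1))) := by
      have hc1 : Integrable (fun β : ℝ => 1 - |β|) (volume.restrict (Set.Ioc (-1 : ℝ) 1)) :=
        ((by fun_prop : Continuous fun β : ℝ => 1 - |β|).integrableOn_Icc).mono_set
          Set.Ioc_subset_Icc_self
      refine (hRi.norm.mul_prod hc1.norm).mono' ?_ (Filter.Eventually.of_forall fun z => ?_)
      · apply Continuous.aestronglyMeasurable
        unfold Function.uncurry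
        fun_prop
      · simp only [Function.uncurry]
        rw [norm_mul, norm_mul]
        have := Real.abs_cos_le_one (2 * Real.pi * z.1 * z.2)
        rw [← Real.norm_eq_abs] at this
        calc ‖ct R z.1‖ * (‖1 - |z.2|‖ * ‖Real.cos (2 * Real.pi * z.1 * z.2)‖) ≤
            ‖ct R z.1‖ * (‖1 - |z.2|‖ * 1) := by gcongr
          _ = _ := by ring
    rw [h1, integral_integral_swap hint, intervalIntegral.integral_of_le (by norm_num)]
    refine integral_congr_ae (Filter.Eventually.of_forall fun β => ?_)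
    show ∫ x, ct R x * ((1 - |β|) * Real.cos (2 * Real.pi * x * β)) = (1 - |β|) * R β
    rw [← ct_inv hR hdec β, ← integral_const_mul]
    refine integral_congr_ae (Filter.Eventually.of_forall fun x => ?_)
    show ct R x * ((1 - |β|) * Real.cos (2 * Real.pi * x * β)) = _
    ring
  have h0 : ∫ x, ct R x = R 0 := by
    have h1 := ct_inv hR hdec 0
    simp only [mul_zero, Real.cos_zero, mul_one] at h1
    exact h1
  have hsi : Integrable fun x => ct R x * Real.sinc (Real.pi * x) ^ 2 := by
    refine hRi.norm.mono' ?_ (Filter.Eventually.of_forall fun x => ?_)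
    · exact (hcc.mul ((Real.continuous_sinc.comp (by fun_prop)).pow 2)).aestronglyMeasurable
    · rw [norm_mul]
      have h2 : ‖Real.sinc (Real.pi * x) ^ 2‖ ≤ 1 := by
        rw [norm_pow]
        exact pow_le_one₀ (norm_nonneg _) (Real.abs_sinc_le_one _)
      exact mul_le_of_le_one_right (norm_nonneg _) h2
  have hsplit : ∫ y, ct R y * gd y = R 0 - ∫ β in (-1 : ℝ)..1, (1 - |β|) * R β := by
    rw [← h0, ← hK, ← integral_sub hRi hsi]
    refine integral_congr_ae (Filter.Eventually.of_forall fun x => ?_)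
    show ct R x * gd x = _
    unfold gd
    ring
  have hct0 : ct R 0 = ∫ α, R α := by
    unfold ct
    refine integral_congr_ae (Filter.Eventually.of_forall fun x => ?_)
    simp
  have hind : ∫ β in (-1 : ℝ)..1, (1 - |β|) * R β =
      ∫ β, (Set.Ioc (-1 : ℝ) 1).indicator (fun β => (1 - |β|) * R β) β := by
    rw [intervalIntegral.integral_of_le (by norm_num), integral_indicator measurableSet_Ioc]
  have hRint : Integrable R := by
    have := hR.mul_int (f := fun _ => 1) continuous_const
    simpa using this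
  have hi2 : Integrable ((Set.Ioc (-1 : ℝ) 1).indicator (fun β => (1 - |β|) * R β)) := by
    rw [integrable_indicator_iff measurableSet_Ioc]
    have hc : Continuous fun β : ℝ => (1 - |β|) * R β :=
      (continuous_const.sub continuous_abs).mul hR.cont
    exact hc.integrableOn_Icc.mono_set Set.Ioc_subset_Icc_self
  rw [hsplit, hct0, hind]
  unfold Lam
  have e : ∫ α, R α * min |α| 1 = (∫ α, R α) -
      ∫ β, (Set.Ioc (-1 : ℝ) 1).indicator (fun β => (1 - |β|) * R β) β := by
    rw [← integral_sub hRint hi2]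
    have hne : ∀ᵐ x : ℝ, x ≠ -1 := by
      rw [ae_iff]
      simp
    refine integral_congr_ae ?_
    filter_upwards [hne] with β hβ
    by_cases h : β ∈ Set.Ioc (-1 : ℝ) 1
    · rw [Set.indicator_of_mem h, min_eq_left (abs_le.2 ⟨h.1.le, h.2⟩)]
      ring
    · rw [Set.indicator_of_notMem h]
      have : 1 ≤ |β| := by
        by_contra hc
        push Not at hc
        obtain ⟨h3, h4⟩ := abs_lt.1 hc
        exact h ⟨h3, h4.le⟩
      rw [min_eq_right this]
      ring
  rw [e]
  ring

end

/-- the predicted integral -/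
theorem AG_Lam {κ : ℝ} {K : ℝ → ℝ} (hK : TK κ K) {h : ℝ} (hh : 0 < h) :
    ∫ y, AG y * (ct K (y + h) - ct K (y - h)) = -Lam (Kav K h) := by
  obtain ⟨D, hD0, hD⟩ := fav_decay hK hh
  have e : ∀ y, ct (Kav K h) y = fav K h y := fun y => (fav_eq hK hh y).symm
  have h1 := main_gen (CE_Kav hK h) (D := D) (fun x => by rw [e]; exact hD x)
  rw [AG_int hK hh, ← h1]
  simp_rw [e]

lemma Q2_ct {κ : ℝ} {K : ℝ → ℝ} (hK : TK κ K) {h : ℝ} (hh : 0 < h) (T Λ : ℝ) :
    Q2 (ct (Kav K h)) T Λ = Q2 (fav K h) T Λ := by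
  have e : ct (Kav K h) = fav K h := funext fun y => (fav_eq hK hh y).symm
  rw [e]

/-- cutoff functions -/
lemma exists_chi {lam kap : ℝ} (h0 : 0 < lam) (h1 : lam < kap) : ∃ χ : ℝ → ℝ, TK kap χ ∧
    (∀ x, |x| ≤ lam → χ x = 1) ∧ (∀ x, 0 ≤ χ x) ∧ (∀ x, χ x ≤ 1) := by
  let f : ContDiffBump (0 : ℝ) := ⟨lam, kap, h0, h1⟩
  refine ⟨f, ⟨f.contDiff, fun x => f.neg x, fun x hx => ?_⟩, fun x hx => ?_, fun x => f.nonneg,
    fun x => f.le_one⟩
  · apply f.zero_of_le_dist
    rw [Real.dist_eq, sub_zero]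
    exact hx.le
  · apply f.one_of_mem_closedBall
    rw [Metric.mem_closedBall, Real.dist_eq, sub_zero]
    exact hx

end H479.P
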