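import Pool.Agent.H479.P.Lm

open MeasureTheory Filter Topology

namespace H479.P

open H479.U hiding mz_nonneg
open Pool.Agent.Y744 TH803TW

/-- uniform convergence -/
lemma ST_unif {l : Filter ℝ} (hl : l ≤ atTop)
    (h : ∀ t, 1 ≤ t → Tendsto (fun T => ST T t) l (𝓝 0)) {A : ℝ} (hA : 1 ≤ A) {ε : ℝ}
    (hε : 0 < ε) : ∀ᶠ T in l, ∀ t, 1 ≤ t → t ≤ A → |ST T t| ≤ ε := by
  obtain ⟨N, hN⟩ := exists_nat_gt ((A - 1) / (ε / 2))
  have hN0 : (0 : ℝ) < N := lt_of_le_of_lt (div_nonneg (by linarith) (by linarith)) hN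
  obtain ⟨k, hk⟩ : ∃ k : ℝ, k = ε / 2 := ⟨_, rfl⟩
  have hk0 : 0 < k := by rw [hk]; positivity
  have h1 : ∀ᶠ T in l, ∀ i ∈ Finset.range (N + 1), |ST T (1 + i * k)| < ε / 2 := by
    rw [Filter.eventually_all_finset]
    intro i _
    have := Metric.tendsto_nhds.1 (h (1 + i * k) (by
      have : (0 : ℝ) ≤ i * k := by positivity
      linarith)) (ε / 2) (by positivity)
    simpa [Real.dist_eq] using this
  filter_upwards [h1, hl (eventually_ge_atTop (1 : ℝ))] with T hT hT1 t ht htA
  have hNk : A - 1 < N * k := by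
    rw [div_lt_iff₀ (by positivity)] at hN
    rw [hk]
    exact hN
  have hq0 : 0 ≤ (t - 1) / k := div_nonneg (by linarith) hk0.le
  rw [abs_le]
  constructor
  · obtain ⟨i, hi⟩ : ∃ i : ℕ, i = ⌊(t - 1) / k⌋₊ := ⟨_, rfl⟩
    have hi1 : (i : ℝ) ≤ (t - 1) / k := by rw [hi]; exact Nat.floor_le hq0
    have hi2 : (t - 1) / k < i + 1 := by rw [hi]; exact Nat.lt_floor_add_one _
    rw [le_div_iff₀ hk0] at hi1
    rw [div_lt_iff₀ hk0] at hi2
    have hiN : i ∈ Finset.range (N + 1) := by
      rw [Finset.mem_range]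
      have : (i : ℝ) * k < N * k := by linarith
      have := lt_of_mul_lt_mul_right this hk0.le
      have : i < N := by exact_mod_cast this
      omega
    have h3 := (abs_lt.1 (hT i hiN)).1
    have h4 := ST_add_mono hT1 (show 1 + i * k ≤ t by linarith)
    linarith
  · obtain ⟨i, hi⟩ : ∃ i : ℕ, i = ⌈(t - 1) / k⌉₊ := ⟨_, rfl⟩
    have hi1 : (t - 1) / k ≤ i := by rw [hi]; exact Nat.le_ceil _
    have hi2 : (i : ℝ) < (t - 1) / k + 1 := by rw [hi]; exact Nat.ceil_lt_add_one hq0
    have hiN : i ∈ Finset.range (N + 1) := by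
      rw [Finset.mem_range, Nat.lt_succ_iff, hi]
      apply Nat.ceil_le.2
      rw [div_le_iff₀ hk0]
      linarith
    rw [div_le_iff₀ hk0] at hi1
    have hi3 : i * k < t - 1 + k := by
      have := mul_lt_mul_of_pos_right hi2 hk0
      rw [add_mul, div_mul_cancel₀ _ hk0.ne', one_mul] at this
      exact this
    have h3 := (abs_lt.1 (hT i hiN)).2
    have h4 := ST_add_mono hT1 (show t ≤ 1 + i * k by linarith)
    linarith

lemma ST_deriv (T t : ℝ) : HasDerivAt (ST T) (Fr T t - 1) t := by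
  have hg : Continuous fun α => Fr T α - 1 := (Fr_cont T).sub continuous_const
  exact intervalIntegral.integral_hasDerivAt_right (hg.intervalIntegrable _ _)
      (hg.stronglyMeasurableAtFilter _ _) hg.continuousAt

/-- weak convergence on `[1, A]` -/
lemma int_lim {l : Filter ℝ} (hl : l ≤ atTop)
    (h : ∀ t, 1 ≤ t → Tendsto (fun T => ST T t) l (𝓝 0)) {A : ℝ} (hA : 1 ≤ A) {R : ℝ → ℝ}
    (hR : Continuous R) : Tendsto (fun T => ∫ α in (1 : ℝ)..A, R α * (Fr T α - 1)) l (𝓝 0) := by
  rw [Metric.tendsto_nhds]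
  intro ε hε
  obtain ⟨η, hη⟩ : ∃ η : ℝ, η = ε / (4 * (2 * A)) := ⟨_, rfl⟩
  have hη0 : 0 < η := by rw [hη]; positivity
  obtain ⟨p, hp⟩ := exists_polynomial_near_of_continuousOn 1 A R hR.continuousOn η hη0
  obtain ⟨P, hP⟩ : ∃ P : ℝ → ℝ, P = fun x => p.eval x := ⟨_, rfl⟩
  obtain ⟨P', hP'⟩ : ∃ P' : ℝ → ℝ, P' = fun x => (Polynomial.derivative p).eval x := ⟨_, rfl⟩
  have hPc : Continuous P := by rw [hP]; exact p.continuous
  have hP'c : Continuous P' := by rw [hP']; exact (Polynomial.derivative p).continuous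
  have hPd : ∀ x, HasDerivAt P (P' x) x := by
    intro x
    rw [hP, hP']
    exact p.hasDerivAt x
  obtain ⟨B, hB⟩ : ∃ B : ℝ, B = |P A| + ∫ t in (1 : ℝ)..A, |P' t| := ⟨_, rfl⟩
  have hB0 : 0 ≤ B := by
    rw [hB]
    have := intervalIntegral.integral_nonneg (μ := volume) hA fun t _ => abs_nonneg (P' t)
    positivity
  obtain ⟨e, he⟩ : ∃ e : ℝ, e = min 1 (ε / (4 * (B + 1))) := ⟨_, rfl⟩
  have he0 : 0 < e := by rw [he]; exact lt_min one_pos (by positivity)
  have he1 : e ≤ 1 := by rw [he]; exact min_le_left _ _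
  have heB : e * B ≤ ε / 4 := by
    have h1 : e ≤ ε / (4 * (B + 1)) := by rw [he]; exact min_le_right _ _
    calc e * B ≤ ε / (4 * (B + 1)) * (B + 1) :=
          mul_le_mul h1 (by linarith) hB0 (by positivity)
      _ = ε / 4 := by field_simp
  filter_upwards [ST_unif hl h hA he0, hl (eventually_ge_atTop (1 : ℝ))] with T hT hT1
  rw [Real.dist_eq, sub_zero]
  have hFc := Fr_cont T
  have hSc := ST_cont T
  -- by parts
  have hparts : ∫ α in (1 : ℝ)..A, P α * (Fr T α - 1) = P A * ST T A -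
      ∫ t in (1 : ℝ)..A, P' t * ST T t := by
    have h1 := intervalIntegral.integral_eq_sub_of_hasDerivAt (a := 1) (b := A)
      (f := fun t => P t * ST T t) (f' := fun t => P' t * ST T t + P t * (Fr T t - 1))
      (fun t _ => (hPd t).mul (ST_deriv T t)) (by
        apply Continuous.intervalIntegrable
        exact (hP'c.mul hSc).add (hPc.mul (hFc.sub continuous_const)))
    have i1 : IntervalIntegrable (fun t => P' t * ST T t) volume 1 A :=
      (hP'c.mul hSc).intervalIntegrable _ _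
    have i2 : IntervalIntegrable (fun t => P t * (Fr T t - 1)) volume 1 A :=
      (hPc.mul (hFc.sub continuous_const)).intervalIntegrable _ _
    rw [intervalIntegral.integral_add i1 i2, ST_one] at h1
    linarith
  have hb1 : |∫ α in (1 : ℝ)..A, P α * (Fr T α - 1)| ≤ e * B := by
    rw [hparts]
    have h1 : |∫ t in (1 : ℝ)..A, P' t * ST T t| ≤ e * ∫ t in (1 : ℝ)..A, |P' t| := by
      rw [← intervalIntegral.integral_const_mul]
      refine (intervalIntegral.abs_integral_le_integral_abs hA).trans ?_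
      refine intervalIntegral.integral_mono_on hA ((hP'c.mul hSc).abs.intervalIntegrable _ _)
        ((continuous_const.mul hP'c.abs).intervalIntegrable _ _) fun t ht => ?_
      rw [abs_mul, mul_comm]
      exact mul_le_mul_of_nonneg_right (hT t ht.1 ht.2) (abs_nonneg _)
    have h2 : |P A * ST T A| ≤ e * |P A| := by
      rw [abs_mul, mul_comm]
      exact mul_le_mul_of_nonneg_right (hT A hA le_rfl) (abs_nonneg _)
    refine (abs_sub _ _).trans ?_
    rw [hB]
    linarith
  have hb2 : |∫ α in (1 : ℝ)..A, (R α - P α) * (Fr T α - 1)| ≤ ε / 4 := by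
    have h1 : |∫ α in (1 : ℝ)..A, (R α - P α) * (Fr T α - 1)| ≤
        ∫ α in (1 : ℝ)..A, η * ((Fr T α - 1) + 2) := by
      refine (intervalIntegral.abs_integral_le_integral_abs hA).trans ?_
      refine intervalIntegral.integral_mono_on hA
        (((hR.sub hPc).mul (hFc.sub continuous_const)).abs.intervalIntegrable _ _)
        ((continuous_const.mul ((hFc.sub continuous_const).add
          continuous_const)).intervalIntegrable _ _) fun t ht => ?_
      rw [abs_mul]
      have h2 : |R t - P t| ≤ η := by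
        rw [abs_sub_comm, hP]
        exact (hp t ht).le
      have h3 : |Fr T t - 1| ≤ (Fr T t - 1) + 2 := by
        have := Fr_nonneg hT1 t
        rw [abs_le]
        constructor <;> linarith
      exact mul_le_mul h2 h3 (abs_nonneg _) hη0.le
    refine h1.trans ?_
    have i1 : IntervalIntegrable (fun t => Fr T t - 1) volume 1 A :=
      (hFc.sub continuous_const).intervalIntegrable _ _
    rw [intervalIntegral.integral_const_mul, intervalIntegral.integral_add
      i1 intervalIntegrable_const]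
    have h4 : ∫ α in (1 : ℝ)..A, (Fr T α - 1) = ST T A := rfl
    rw [h4, intervalIntegral.integral_const, smul_eq_mul]
    have h5 := (abs_le.1 (hT A hA le_rfl)).2
    calc η * (ST T A + (A - 1) * 2) ≤ η * (2 * A) := by
          apply mul_le_mul_of_nonneg_left _ hη0.le
          linarith
      _ = ε / 4 := by rw [hη]; field_simp
  have hsum : ∫ α in (1 : ℝ)..A, R α * (Fr T α - 1) =
      (∫ α in (1 : ℝ)..A, (R α - P α) * (Fr T α - 1)) + ∫ α in (1 : ℝ)..A, P α * (Fr T α - 1) := by
    rw [← intervalIntegral.integral_add]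
    · apply intervalIntegral.integral_congr
      intro α _
      simp only
      ring
    · exact ((hR.sub hPc).mul (hFc.sub continuous_const)).intervalIntegrable _ _
    · exact (hPc.mul (hFc.sub continuous_const)).intervalIntegrable _ _
  rw [hsum]
  have h6 := abs_add_le (∫ α in (1 : ℝ)..A, (R α - P α) * (Fr T α - 1))
    (∫ α in (1 : ℝ)..A, P α * (Fr T α - 1))
  linarith

/-- even functions -/
lemma int_even {g : ℝ → ℝ} (hg : Continuous g) (he : ∀ x, g (-x) = g x) {A : ℝ}
    (hA : 0 ≤ A) (hs : ∀ x, A < |x| → g x = 0) : ∫ x, g x = 2 * ∫ x in (0 : ℝ)..A, g x := by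
  have h1 : ∫ x in (-A)..A, g x = ∫ x, g x := by
    rw [intervalIntegral.integral_of_le (by linarith), ← integral_Icc_eq_integral_Ioc]
    refine setIntegral_eq_integral_of_forall_compl_eq_zero fun x hx => ?_
    apply hs
    by_contra hc
    push Not at hc
    exact hx (abs_le.1 hc)
  rw [← h1, H370.A2.int_sym g hg, ← intervalIntegral.integral_const_mul]
  apply intervalIntegral.integral_congr
  intro x _
  simp only
  rw [he]
  ring

lemma TK_sub {κ : ℝ} {K K' : ℝ → ℝ} (h : TK κ K) (h' : TK κ K') : TK κ (fun α => K α - K' α) :=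
  ⟨h.smooth.sub h'.smooth, fun x => by rw [h.even, h'.even], fun x hx => by
    rw [h.supp x hx, h'.supp x hx, sub_zero]⟩

lemma TK_mul {κ κ' : ℝ} {K K' : ℝ → ℝ} (h : TK κ K) (h' : TK κ' K') :
    TK κ' (fun α => K α * K' α) :=
  ⟨h.smooth.mul h'.smooth, fun x => by rw [h.even, h'.even], fun x hx => by
    rw [h'.supp x hx, mul_zero]⟩

lemma TK_bdd {κ : ℝ} {K : ℝ → ℝ} (h : TK κ K) : ∃ B : ℝ, 0 ≤ B ∧ ∀ x, |K x| ≤ B := by
  obtain ⟨B, hB⟩ := h.hcs.exists_bound_of_continuous h.cont
  refine ⟨B, (norm_nonneg _).trans (hB 0), fun x => hB x⟩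

lemma fav_sub {κ : ℝ} {K K' : ℝ → ℝ} (h : TK κ K) (h' : TK κ K') (a y : ℝ) :
    fav (fun α => K α - K' α) a y = fav K a y - fav K' a y := by
  have hct : ∀ u, ct (fun α => K α - K' α) u = ct K u - ct K' u := by
    intro u
    unfold ct
    rw [← integral_sub (h.mul_int (by fun_prop)) (h'.mul_int (by fun_prop))]
    refine integral_congr_ae (Eventually.of_forall fun α => ?_)
    show (K α - K' α) * _ = _
    ring
  unfold fav
  simp_rw [hct]
  rw [intervalIntegral.integral_sub (h.ct_cont.intervalIntegrable _ _)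
    (h'.ct_cont.intervalIntegrable _ _)]

lemma Q2_sub (f g : ℝ → ℝ) (T Λ : ℝ) : Q2 (fun x => f x - g x) T Λ = Q2 f T Λ - Q2 g T Λ := by
  unfold Q2 QS
  rw [← Finset.sum_sub_distrib]
  refine Finset.sum_congr rfl fun s _ => ?_
  rw [← Finset.sum_sub_distrib]
  refine Finset.sum_congr rfl fun s' _ => ?_
  ring

lemma Lam_sub {κ : ℝ} {R R' : ℝ → ℝ} (h : CE κ R) (h' : CE κ R') :
    Lam (fun α => R α - R' α) = Lam R - Lam R' := by
  unfold Lam
  have e : ∫ α, (R α - R' α) * min |α| 1 = (∫ α, R α * min |α| 1) - ∫ α, R' α * min |α| 1 := by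
    rw [← integral_sub (h.mul_int (by fun_prop)) (h'.mul_int (by fun_prop))]
    refine integral_congr_ae (Eventually.of_forall fun α => ?_)
    show (R α - R' α) * _ = _
    ring
  rw [e]
  ring

/-- **from the convergence of `F` in the mean to the test functions of every bandwidth** -/
theorem testA (RH : RiemannHypothesis) {l : Filter ℝ} (hl : l ≤ atTop)
    (hS : ∀ t, 1 ≤ t → Tendsto (fun T => ST T t) l (𝓝 0)) {κ : ℝ} {K : ℝ → ℝ} (hK : TK κ K)
    {h : ℝ} (hh : 0 < h) :
    Tendsto (fun T => Q2 (fav K h) T (Real.log T) / Xf T) l (𝓝 (Lam (Kav K h))) := by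
  obtain ⟨κ', hκ'⟩ : ∃ κ' : ℝ, κ' = max κ 1 := ⟨_, rfl⟩
  have hκ1 : 1 ≤ κ' := by rw [hκ']; exact le_max_right _ _
  have hK' : TK κ' K := hK.mono (by rw [hκ']; exact le_max_left _ _)
  obtain ⟨B0, hB00, hB0⟩ := TK_bdd hK
  obtain ⟨B, hB⟩ : ∃ B : ℝ, B = B0 * (2 * h) := ⟨_, rfl⟩
  have hBn : 0 ≤ B := by rw [hB]; positivity
  obtain ⟨C, T1, hC, hT1, hnear⟩ := Fr_near RH
  obtain ⟨C2, T2, hC2, hT2, herr⟩ := F_err RH
  rw [Metric.tendsto_nhds]
  intro ε hε
  -- the cutoff
  obtain ⟨lam, hlam⟩ : ∃ x : ℝ, x = 1 - min (1 / 2) (ε / (8 * (B + 1) * (C + 1))) := ⟨_, rfl⟩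
  have hm0 : 0 < min (1 / 2 : ℝ) (ε / (8 * (B + 1) * (C + 1))) :=
    lt_min (by norm_num) (by positivity)
  have hlam1 : lam < 1 := by rw [hlam]; linarith
  have hlam2 : 1 / 2 ≤ lam := by
    rw [hlam]
    have := min_le_left (1 / 2 : ℝ) (ε / (8 * (B + 1) * (C + 1)))
    linarith
  have hlam3 : 2 * (B * (C + 1) * (1 - lam)) ≤ ε / 4 := by
    have h1 : 1 - lam ≤ ε / (8 * (B + 1) * (C + 1)) := by
      rw [hlam]
      have := min_le_right (1 / 2 : ℝ) (ε / (8 * (B + 1) * (C + 1)))
      linarith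
    have h2 : B * (C + 1) * (1 - lam) ≤ (B + 1) * (C + 1) * (ε / (8 * (B + 1) * (C + 1))) := by
      apply mul_le_mul _ h1 (by linarith) (by positivity)
      apply mul_le_mul_of_nonneg_right (by linarith) (by linarith)
    have h3 : (B + 1) * (C + 1) * (ε / (8 * (B + 1) * (C + 1))) = ε / 8 := by field_simp
    linarith
  obtain ⟨kap, hkap⟩ : ∃ x : ℝ, x = (1 + lam) / 2 := ⟨_, rfl⟩
  have hkap1 : kap < 1 := by rw [hkap]; linarith
  have hkap0 : 0 < kap := by rw [hkap]; linarith
  obtain ⟨χ, hχ, hχ1, hχ0, hχle⟩ := exists_chi (lam := lam) (kap := kap) (by linarith)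
    (by rw [hkap]; linarith)
  have hK1 : TK kap (fun α => K α * χ α) := TK_mul hK hχ
  obtain ⟨K1, hK1d⟩ : ∃ K1 : ℝ → ℝ, K1 = fun α => K α * χ α := ⟨_, rfl⟩
  rw [← hK1d] at hK1
  have hK1' : TK κ' K1 := hK1.mono (by linarith)
  have hK2 := TK_sub hK' hK1'
  obtain ⟨K2, hK2d⟩ : ∃ K2 : ℝ → ℝ, K2 = fun α => K α - K1 α := ⟨_, rfl⟩
  rw [← hK2d] at hK2
  have hfav : ∀ y, fav K2 h y = fav K h y - fav K1 h y := by
    intro y
    rw [hK2d]
    exact fav_sub hK' hK1' h y
  -- first part
  have t1 : Tendsto (fun T => Q2 (fav K1 h) T (Real.log T) / Xf T) l (𝓝 (Lam (Kav K1 h))) := by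
    have h1 := (mont_lim RH (NTf_fav hK1 hkap0 hkap1 hh)).mono_left hl
    rw [mont_fav hK1 hkap1 hh] at h1
    obtain ⟨D, hD0, hD⟩ := fav_decay hK1 hh
    have e : ∀ y, ct (Kav K1 h) y = fav K1 h y := fun y => (fav_eq hK1 hh y).symm
    have h2 := main_gen (CE_Kav hK1 h) (D := D) (fun x => by rw [e]; exact hD x)
    simp_rw [e] at h2
    rw [h2] at h1
    exact h1
  -- second part
  obtain ⟨D, hD0, hD⟩ := fav_decay hK2 hh
  have hR2 := CE_Kav hK2 h
  obtain ⟨R2, hR2d⟩ : ∃ R : ℝ → ℝ, R = Kav K2 h := ⟨_, rfl⟩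
  have hct2 : ct R2 = fav K2 h := by
    rw [hR2d]
    exact funext fun y => (fav_eq hK2 hh y).symm
  rw [← hR2d] at hR2
  have hR2z : ∀ x, |x| ≤ lam → R2 x = 0 := by
    intro x hx
    rw [hR2d]
    unfold Kav
    rw [hK2d, hK1d]
    simp only
    rw [hχ1 x hx]
    ring
  have hR2b : ∀ x, |R2 x| ≤ B := by
    intro x
    rw [hR2d]
    unfold Kav
    rw [hK2d, hK1d]
    simp only
    have h1 : K x - K x * χ x = K x * (1 - χ x) := by ring
    rw [h1, abs_mul, abs_mul, abs_mul, hB, abs_of_pos (show (0 : ℝ) < 2 * h by positivity)]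
    have h2 : |1 - χ x| ≤ 1 := by
      rw [abs_le]
      constructor <;> linarith [hχ0 x, hχle x]
    have h3 := Real.abs_sinc_le_one (2 * Real.pi * h * x)
    calc |K x| * |1 - χ x| * (2 * h * |Real.sinc (2 * Real.pi * h * x)|) ≤
        B0 * 1 * (2 * h * 1) := by
          apply mul_le_mul
          · exact mul_le_mul (hB0 x) h2 (abs_nonneg _) hB00
          · exact mul_le_mul_of_nonneg_left h3 (by positivity)
          · positivity
          · positivity
      _ = B0 * (2 * h) := by ring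
  have t2 : ∀ᶠ T in l, |(∫ α, R2 α * Fr T α) - Q2 (fav K2 h) T (Real.log T) / Xf T| < ε / 4 := by
    have h1 : Tendsto (fun T => D * (C2 / (Real.log T) ^ 2)) atTop (𝓝 (D * 0)) := by
      apply Tendsto.const_mul
      apply Tendsto.div_atTop tendsto_const_nhds
      exact (tendsto_pow_atTop (by norm_num)).comp Real.tendsto_log_atTop
    rw [mul_zero] at h1
    have h2 : ∀ᶠ T in atTop, D * (C2 / (Real.log T) ^ 2) < ε / 4 :=
      h1.eventually_lt_const (by positivity)
    filter_upwards [hl h2, hl (eventually_ge_atTop T2)] with T h3 h4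
    have h5 := herr T h4 κ' R2 D hR2 hD0 (fun x => by rw [hct2]; exact hD x)
    rw [hct2] at h5
    linarith
  have t3 : ∀ᶠ T in l, |(∫ α, R2 α * Fr T α) - Lam R2| < ε / 2 - ε / 8 := by
    have h1 := int_lim hl hS hκ1 hR2.cont
    filter_upwards [Metric.tendsto_nhds.1 h1 (ε / 32) (by positivity),
      hl (eventually_ge_atTop T1)] with T h2 h3
    rw [Real.dist_eq, sub_zero] at h2
    have hT10 : 10 ≤ T := hT1.trans h3
    have hFc := Fr_cont T
    have hmc : Continuous fun α : ℝ => min |α| 1 := by fun_prop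
    obtain ⟨g, hg⟩ : ∃ g : ℝ → ℝ, g = fun α => R2 α * (Fr T α - min |α| 1) := ⟨_, rfl⟩
    have hgc : Continuous g := by
      rw [hg]
      exact hR2.cont.mul (hFc.sub hmc)
    have e1 : (∫ α, R2 α * Fr T α) - Lam R2 = ∫ α, g α := by
      unfold Lam
      rw [hR2z 0 (by rw [abs_zero]; linarith), zero_add,
        ← integral_sub (hR2.mul_int hFc) (hR2.mul_int hmc)]
      refine integral_congr_ae (Eventually.of_forall fun α => ?_)
      show _ = g α
      rw [hg]
      ring
    have e2 : ∫ α, g α = 2 * ∫ α in (0 : ℝ)..κ', g α := by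
      apply int_even hgc
      · intro x
        rw [hg]
        simp only
        rw [hR2.even, Fr_neg, abs_neg]
      · linarith
      · intro x hx
        rw [hg]
        simp only
        rw [hR2.supp x hx, zero_mul]
    have e3 : ∫ α in (0 : ℝ)..κ', g α = (∫ α in (0 : ℝ)..lam, g α) + (∫ α in lam..1, g α) +
        ∫ α in (1 : ℝ)..κ', g α := by
      rw [intervalIntegral.integral_add_adjacent_intervals (hgc.intervalIntegrable _ _)
        (hgc.intervalIntegrable _ _), intervalIntegral.integral_add_adjacent_intervals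
        (hgc.intervalIntegrable _ _) (hgc.intervalIntegrable _ _)]
    have e4 : ∫ α in (0 : ℝ)..lam, g α = 0 := by
      have : ∫ α in (0 : ℝ)..lam, g α = ∫ α in (0 : ℝ)..lam, (0 : ℝ) := by
        apply intervalIntegral.integral_congr
        intro α hα
        rw [Set.uIcc_of_le (by linarith)] at hα
        simp only
        rw [hg]
        simp only
        rw [hR2z α (by rw [abs_of_nonneg hα.1]; exact hα.2), zero_mul]
      rw [this]
      simp
    have e5 : |∫ α in lam..1, g α| ≤ B * (C + 1) * (1 - lam) := by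
      have h4 := intervalIntegral.norm_integral_le_of_norm_le_const (a := lam) (b := 1)
        (f := g) (C := B * (C + 1)) (fun α hα => by
          rw [Set.uIoc_of_le hlam1.le] at hα
          rw [hg, Real.norm_eq_abs, abs_mul]
          have h5 := hnear T h3 α (by linarith [hα.1]) hα.2
          have h6 := Fr_nonneg (T := T) (by linarith) α
          have h7 : |Fr T α - min |α| 1| ≤ C + 1 := by
            have h8 : 0 ≤ min |α| 1 := le_min (abs_nonneg _) zero_le_one
            have h9 : min |α| 1 ≤ 1 := min_le_right _ _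
            rw [abs_le]
            constructor <;> linarith
          exact mul_le_mul (hR2b α) h7 (abs_nonneg _) hBn)
      rw [Real.norm_eq_abs, abs_of_pos (by linarith : 0 < 1 - lam)] at h4
      exact h4
    have e6 : ∫ α in (1 : ℝ)..κ', g α = ∫ α in (1 : ℝ)..κ', R2 α * (Fr T α - 1) := by
      apply intervalIntegral.integral_congr
      intro α hα
      rw [Set.uIcc_of_le hκ1] at hα
      simp only
      rw [hg]
      simp only
      rw [abs_of_nonneg (by linarith [hα.1]), min_eq_right hα.1]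
    rw [e1, e2, e3, e4, zero_add, e6]
    have h5 := abs_add_le (∫ α in lam..1, g α) (∫ α in (1 : ℝ)..κ', R2 α * (Fr T α - 1))
    rw [abs_mul, abs_of_pos (by norm_num : (0 : ℝ) < 2)]
    linarith
  -- conclusion
  filter_upwards [Metric.tendsto_nhds.1 t1 (ε / 4) (by positivity), t2, t3] with T a1 a2 a3
  rw [Real.dist_eq] at a1 ⊢
  have hLam : Lam (Kav K h) = Lam (Kav K1 h) + Lam R2 := by
    have h1 := Lam_sub (CE_Kav hK' h) (CE_Kav hK1' h)
    have h2 : R2 = fun α => Kav K h α - Kav K1 h α := by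
      rw [hR2d]
      funext α
      unfold Kav
      rw [hK2d]
      ring
    rw [h2, h1]
    ring
  have hQ : Q2 (fav K h) T (Real.log T) / Xf T = Q2 (fav K1 h) T (Real.log T) / Xf T +
      Q2 (fav K2 h) T (Real.log T) / Xf T := by
    have h1 : fav K2 h = fun y => fav K h y - fav K1 h y := funext hfav
    rw [h1, Q2_sub, ← add_div]
    congr 1
    ring
  rw [hLam, hQ]
  rw [abs_lt] at a1 a2 a3 ⊢
  constructor <;> linarith [a1.1, a1.2, a2.1, a2.2, a3.1, a3.2]

end H479.P
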