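import Pool.Agent.H479.P.Rig

open MeasureTheory Filter Topology

namespace H479.P

open H479.U hiding mz_nonneg
open Pool.Agent.Y744 TH803TW

/-- the counting functions converge if Montgomery's conjecture holds along `l` -/
lemma Aa_of_Mont {l : Filter ℝ} (hl : l ≤ atTop)
    (h : ∀ α β, α < β → Tendsto (fun T => Nr T α β) l (𝓝 (pr α β))) (y : ℝ) :
    Tendsto (fun T => Aa T y) l (𝓝 (AG y)) := by
  have hpos : ∀ y, 0 < y → Tendsto (fun T => Aa T y) l (𝓝 (AG y)) := by
    intro y hy
    have h1 := h (-y) y (by linarith)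
    rw [ANC.pr_sym hy.le] at h1
    exact h1.congr fun T => ANC.Nr_sym T y
  rcases lt_trichotomy y 0 with hy | rfl | hy
  · have e1 : AG y = 0 := by
      unfold AG
      rw [if_pos hy]
    have e2 : (fun T => Aa T y) = fun _ => 0 := funext fun T => Aa_neg T y hy
    rw [e1, e2]
    exact tendsto_const_nhds
  · have e1 : AG 0 = 1 := by
      unfold AG
      rw [if_neg (lt_irrefl _), gp_zero]
      ring
    rw [e1, tendsto_order]
    constructor
    · intro a ha
      filter_upwards [hl (Aa_diag (ε := (1 - a) / 2) (by linarith))] with T hT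
      linarith
    · intro a ha
      have hc : ContinuousAt (fun z => 1 + 2 * gp z) 0 :=
        continuousAt_const.add (continuousAt_const.mul gp_cont.continuousAt)
      have h3 : ∀ᶠ z in 𝓝 (0 : ℝ), 1 + 2 * gp z < a := hc.eventually_lt_const (by
        show 1 + 2 * gp 0 < _
        rw [gp_zero]
        linarith)
      obtain ⟨δ, hδ, h4⟩ := Metric.eventually_nhds_iff.1 h3
      have h5 := h4 (show dist (δ / 2) 0 < δ by
        rw [Real.dist_eq, sub_zero, abs_of_pos (by positivity)]
        linarith)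
      have h6 : AG (δ / 2) < a := by
        unfold AG
        rw [if_neg (by linarith)]
        exact h5
      filter_upwards [(tendsto_order.1 (hpos (δ / 2) (by positivity))).2 a h6,
        hl (eventually_gt_atTop (1 : ℝ))] with T hT hT1
      exact (Aa_mono hT1 (by positivity)).trans_lt hT
  · exact hpos y hy

/-- passage to the limit in the integrals -/
lemma int_along (RH : RiemannHypothesis) {l : Filter ℝ} (hl : l ≤ atTop)
    (hA : ∀ y, Tendsto (fun T => Aa T y) l (𝓝 (AG y))) {w : ℝ → ℝ} (hw : Measurable w) {D : ℝ}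
    (hwd : ∀ y, |w y| ≤ D / (1 + y ^ 2) ^ 2) :
    Tendsto (fun T => ∫ y, Aa T y * w y) l (𝓝 (∫ y, AG y * w y)) := by
  obtain ⟨C0, T0, hT0, hb⟩ := Aa_bound RH
  have hC0 : 0 ≤ C0 := by
    have := (abs_nonneg _).trans (hb T0 le_rfl 0)
    simpa using this
  have hD0 : 0 ≤ D := by
    have := (abs_nonneg _).trans (hwd 0)
    simpa using this
  rw [tendsto_iff_ultrafilter]
  intro g hg
  have hgt : (g : Filter ℝ) ≤ atTop := hg.trans hl
  have hTg : ∀ᶠ T in (g : Filter ℝ), T0 ≤ T := hgt (eventually_ge_atTop _)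
  have hmono : ∀ T, T0 ≤ T → Monotone (Aa T) := fun T hT => Aa_mono (by linarith)
  obtain ⟨M, hM⟩ : ∃ M : ℝ, M = ∫ y : ℝ, C0 * D * (1 + y ^ 2)⁻¹ := ⟨_, rfl⟩
  have hDi : Integrable fun y : ℝ => C0 * D * (1 + y ^ 2)⁻¹ :=
    integrable_inv_one_add_sq.const_mul _
  have hbd : ∀ T, T0 ≤ T → |∫ y, Aa T y * w y| ≤ M := by
    intro T hT
    rw [hM, ← Real.norm_eq_abs]
    refine norm_integral_le_of_norm_le hDi (Eventually.of_forall fun y => ?_)
    rw [Real.norm_eq_abs, abs_mul]
    calc |Aa T y| * |w y| ≤ (C0 * (1 + y ^ 2)) * (D / (1 + y ^ 2) ^ 2) := by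
          gcongr
          · exact hb _ hT y
          · exact hwd y
      _ = C0 * D * (1 + y ^ 2)⁻¹ := by field_simp
  have h1 : ((g.map fun T => ∫ y, Aa T y * w y : Ultrafilter ℝ) : Filter ℝ) ≤
      𝓟 (Set.Icc (-M) M) := by
    rw [le_principal_iff]
    have h2 : ∀ᶠ T in (g : Filter ℝ), (∫ y, Aa T y * w y) ∈ Set.Icc (-M) M := by
      filter_upwards [hTg] with T hT1
      exact abs_le.1 (hbd T hT1)
    exact h2
  obtain ⟨J, _, hJ⟩ := isCompact_Icc.ultrafilter_le_nhds _ h1
  have hJ' : Tendsto (fun T => ∫ y, Aa T y * w y) (g : Filter ℝ) (𝓝 J) := hJ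
  have hlim : ∀ y, Tendsto (fun T => Aa T y) (g : Filter ℝ) (𝓝 (AG y)) := fun y =>
    (hA y).mono_left hg
  have hmA : Monotone AG := by
    intro a b hab
    refine le_of_tendsto_of_tendsto (hlim a) (hlim b) ?_
    filter_upwards [hTg] with T hT1 using hmono T hT1 hab
  have h2 := lim_int' hmono hb hw hwd (l := g) hJ' hgt le_rfl hmA hlim
  rw [h2]
  exact hJ'

/-- the test functions on the conjecture -/
lemma testB (RH : RiemannHypothesis) {l : Filter ℝ} (hl : l ≤ atTop)
    (hA : ∀ y, Tendsto (fun T => Aa T y) l (𝓝 (AG y))) {κ : ℝ} {K : ℝ → ℝ} (hK : TK κ K)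
    {h : ℝ} (hh : 0 < h) :
    Tendsto (fun T => ∫ α, Kav K h α * Fr T α) l (𝓝 (Lam (Kav K h))) := by
  obtain ⟨D1, hD1⟩ := test_decay hK h
  have hw : Measurable fun y => ct K (y + h) - ct K (y - h) :=
    ((hK.ct_cont.comp (by fun_prop)).sub (hK.ct_cont.comp (by fun_prop))).measurable
  have h1 := int_along RH hl hA hw hD1
  rw [AG_Lam hK hh] at h1
  have h2 : Tendsto (fun T => Q2 (fav K h) T (Real.log T) / Xf T) l (𝓝 (Lam (Kav K h))) := by
    have h3 := h1.neg
    rw [neg_neg] at h3
    refine h3.congr fun T => ?_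
    rw [Aa_int hK hh, div_eq_inv_mul]
    ring
  obtain ⟨C2, T2, hC2, hT2, herr⟩ := F_err RH
  obtain ⟨D, hD0, hD⟩ := fav_decay hK hh
  have hct2 : ct (Kav K h) = fav K h := funext fun y => (fav_eq hK hh y).symm
  have h4 : Tendsto (fun T => (∫ α, Kav K h α * Fr T α) - Q2 (fav K h) T (Real.log T) / Xf T) l
      (𝓝 0) := by
    have h5 : Tendsto (fun T => D * (C2 / (Real.log T) ^ 2)) atTop (𝓝 (D * 0)) := by
      apply Tendsto.const_mul
      apply Tendsto.div_atTop tendsto_const_nhds
      exact (tendsto_pow_atTop (by norm_num)).comp Real.tendsto_log_atTop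
    rw [mul_zero] at h5
    refine squeeze_zero_norm' ?_ (h5.mono_left hl)
    filter_upwards [hl (eventually_ge_atTop T2)] with T hT
    have h6 := herr T hT κ (Kav K h) D (CE_Kav hK h) hD0 (fun x => by rw [hct2]; exact hD x)
    rw [hct2] at h6
    exact h6
  have h5 := h2.add h4
  rw [add_zero] at h5
  refine h5.congr fun T => ?_
  ring

/-- **the conjecture implies its upper half** -/
theorem upper_of_Aa (RH : RiemannHypothesis) {l : Filter ℝ} (hl : l ≤ atTop)
    (hA : ∀ y, Tendsto (fun T => Aa T y) l (𝓝 (AG y))) : UpperHalf l := by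
  intro a b ha hab ε hε
  -- the choice of `η`
  obtain ⟨η, hη0, hη1, hη2⟩ : ∃ η : ℝ, 0 < η ∧ η ≤ 1 / 2 ∧
      (b - a + 2 * η + η) ≤ (1 - η) * (b - a + ε) := by
    refine ⟨min (1 / 2) (ε / (3 + (b - a + ε))), lt_min (by norm_num) ?_, min_le_left _ _, ?_⟩
    · have : 0 < 3 + (b - a + ε) := by linarith
      positivity
    · obtain ⟨η, hη⟩ : ∃ η : ℝ, η = min (1 / 2) (ε / (3 + (b - a + ε))) := ⟨_, rfl⟩
      rw [← hη]
      have h1 : η ≤ ε / (3 + (b - a + ε)) := by rw [hη]; exact min_le_right _ _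
      rw [le_div_iff₀ (by linarith)] at h1
      linarith
  have hb0 : 0 < b := by linarith
  obtain ⟨χ1, hχ1, h11, h10, h1le⟩ := exists_chi (lam := b) (kap := b + η) hb0 (by linarith)
  obtain ⟨χ2, hχ2, h21, h20, h2le⟩ := exists_chi (lam := a - η) (kap := a) (by linarith)
    (by linarith)
  have hχ2' : TK (b + η) χ2 := hχ2.mono (by linarith)
  have hK := TK_sub hχ1 hχ2'
  obtain ⟨K, hKd⟩ : ∃ K : ℝ → ℝ, K = fun α => χ1 α - χ2 α := ⟨_, rfl⟩
  rw [← hKd] at hK
  have hK1 : ∀ α, a < |α| → |α| ≤ b → K α = 1 := by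
    intro α h1 h2
    rw [hKd]
    simp only
    rw [h11 α h2, hχ2.supp α h1, sub_zero]
  have hKz : ∀ α, |α| ≤ a - η → K α = 0 := by
    intro α h1
    rw [hKd]
    simp only
    rw [h11 α (by linarith), h21 α h1, sub_self]
  have hKn : ∀ α, 0 ≤ K α := by
    intro α
    rw [hKd]
    simp only
    rcases le_or_gt |α| a with h1 | h1
    · rw [h11 α (by linarith)]
      linarith [h2le α]
    · rw [hχ2.supp α h1, sub_zero]
      exact h10 α
  have hKle : ∀ α, K α ≤ 1 := by
    intro α
    rw [hKd]
    simp only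
    linarith [h1le α, h20 α]
  -- the choice of `h`
  have hsc : ∀ᶠ z in 𝓝 (0 : ℝ), 1 - η < Real.sinc z := by
    apply Real.continuous_sinc.continuousAt.eventually_const_lt
    rw [Real.sinc_zero]
    linarith
  obtain ⟨δ, hδ, hsc'⟩ := Metric.eventually_nhds_iff.1 hsc
  have hpi := Real.pi_pos
  obtain ⟨h, hh⟩ : ∃ h : ℝ, h = δ / (4 * Real.pi * (b + η)) := ⟨_, rfl⟩
  have hh0 : 0 < h := by
    rw [hh]
    have : 0 < b + η := by linarith
    positivity
  have hsinc : ∀ α, |α| ≤ b + η → 1 - η < Real.sinc (2 * Real.pi * h * α) := by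
    intro α hα
    apply hsc'
    rw [Real.dist_eq, sub_zero, abs_mul, abs_of_pos (by positivity)]
    have hbe : 0 < b + η := by linarith
    calc 2 * Real.pi * h * |α| ≤ 2 * Real.pi * h * (b + η) := by gcongr
      _ = δ / 2 := by rw [hh]; field_simp; norm_num
      _ < δ := by linarith
  obtain ⟨R, hR⟩ : ∃ R : ℝ → ℝ, R = Kav K h := ⟨_, rfl⟩
  have hRCE : CE (b + η) R := by rw [hR]; exact CE_Kav hK h
  have hRn : ∀ α, 0 ≤ R α := by
    intro α
    rw [hR]
    unfold Kav
    rcases le_or_gt |α| (b + η) with h1 | h1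
    · have := hsinc α h1
      have h2 : 0 ≤ Real.sinc (2 * Real.pi * h * α) := by linarith
      have := hKn α
      positivity
    · rw [hK.supp α h1, zero_mul]
  have hRle : ∀ α, R α ≤ 2 * h := by
    intro α
    rw [hR]
    unfold Kav
    have h1 := Real.sinc_le_one (2 * Real.pi * h * α)
    have h2 := hKn α
    have h3 := hKle α
    rcases le_or_gt |α| (b + η) with h4 | h4
    · have h5 := hsinc α h4
      have h6 : 2 * h * Real.sinc (2 * Real.pi * h * α) ≤ 2 * h * 1 :=
        mul_le_mul_of_nonneg_left h1 (by positivity)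
      have h7 : 0 ≤ 2 * h * Real.sinc (2 * Real.pi * h * α) :=
        mul_nonneg (by positivity) (by linarith)
      calc K α * (2 * h * Real.sinc (2 * Real.pi * h * α)) ≤ 1 * (2 * h * 1) :=
            mul_le_mul h3 h6 h7 zero_le_one
        _ = 2 * h := by ring
    · rw [hK.supp α h4, zero_mul]
      positivity
  have hRz : ∀ α, |α| ≤ a - η → R α = 0 := by
    intro α h1
    rw [hR]
    unfold Kav
    rw [hKz α h1, zero_mul]
  have hmc : Continuous fun α : ℝ => min |α| 1 := by fun_prop
  -- the predicted value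
  have hLam : Lam R ≤ 2 * (2 * h * (b - a + 2 * η)) := by
    unfold Lam
    rw [hRz 0 (by rw [abs_zero]; linarith), zero_add]
    have hgc : Continuous fun α => R α * min |α| 1 := hRCE.cont.mul hmc
    rw [int_even hgc (fun x => by rw [hRCE.even, abs_neg]) (A := b + η) (by linarith)
      (fun x hx => by rw [hRCE.supp x hx, zero_mul])]
    have h1 : ∫ α in (0 : ℝ)..(b + η), R α * min |α| 1 ≤ 2 * h * (b - a + 2 * η) := by
      rw [← intervalIntegral.integral_add_adjacent_intervals (a := 0) (b := a - η) (c := b + η)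
        (hgc.intervalIntegrable _ _) (hgc.intervalIntegrable _ _)]
      have h2 : ∫ α in (0 : ℝ)..(a - η), R α * min |α| 1 = ∫ α in (0 : ℝ)..(a - η), (0 : ℝ) := by
        apply intervalIntegral.integral_congr
        intro α hα
        rw [Set.uIcc_of_le (by linarith)] at hα
        simp only
        rw [hRz α (by rw [abs_of_nonneg hα.1]; exact hα.2), zero_mul]
      have h3 : ∫ α in (a - η)..(b + η), R α * min |α| 1 ≤ ∫ α in (a - η)..(b + η), 2 * h := by
        apply intervalIntegral.integral_mono_on (by linarith) (hgc.intervalIntegrable _ _)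
          intervalIntegrable_const
        intro α _
        have h4 : min |α| 1 ≤ 1 := min_le_right _ _
        have h5 : 0 ≤ min |α| 1 := le_min (abs_nonneg _) zero_le_one
        calc R α * min |α| 1 ≤ 2 * h * 1 := mul_le_mul (hRle α) h4 h5 (by positivity)
          _ = 2 * h := by ring
      rw [h2, intervalIntegral.integral_const]
      rw [intervalIntegral.integral_const] at h3
      simp only [smul_eq_mul, mul_zero, zero_add] at h3 ⊢
      refine h3.trans (le_of_eq ?_)
      ring
    linarith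
  have ht := testB RH hl hA hK hh0
  rw [← hR] at ht
  have hlt : Lam R < 2 * (2 * h * (b - a + 2 * η + η)) := by
    refine hLam.trans_lt ?_
    have : 0 < h * η := by positivity
    nlinarith
  filter_upwards [(tendsto_order.1 ht).2 _ hlt, hl (eventually_ge_atTop (1 : ℝ))] with T hT hT1
  have hFc := Fr_cont T
  have hgc : Continuous fun α => R α * Fr T α := hRCE.cont.mul hFc
  rw [int_even hgc (fun x => by rw [hRCE.even, Fr_neg]) (A := b + η) (by linarith)
    (fun x hx => by rw [hRCE.supp x hx, zero_mul])] at hT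
  have hFn : ∀ α, 0 ≤ Fr T α := Fr_nonneg hT1
  have h1 : ∫ α in a..b, (2 * h * (1 - η)) * Fr T α ≤ ∫ α in (0 : ℝ)..(b + η), R α * Fr T α := by
    calc ∫ α in a..b, (2 * h * (1 - η)) * Fr T α ≤ ∫ α in a..b, R α * Fr T α := by
          rw [intervalIntegral.integral_of_le hab.le, intervalIntegral.integral_of_le hab.le]
          refine setIntegral_mono_on ?_ ?_ measurableSet_Ioc fun α hα => ?_
          · exact (continuous_const.mul hFc).integrableOn_Icc.mono_set Set.Ioc_subset_Icc_self
          · exact hgc.integrableOn_Icc.mono_set Set.Ioc_subset_Icc_self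
          · apply mul_le_mul_of_nonneg_right _ (hFn α)
            have hα0 : 0 ≤ α := by linarith [hα.1]
            rw [hR]
            unfold Kav
            rw [hK1 α (by rw [abs_of_nonneg hα0]; exact hα.1)
              (by rw [abs_of_nonneg hα0]; exact hα.2), one_mul]
            have := hsinc α (by rw [abs_of_nonneg hα0]; linarith [hα.2])
            exact mul_le_mul_of_nonneg_left this.le (by positivity)
      _ ≤ ∫ α in (0 : ℝ)..(b + η), R α * Fr T α := by
          apply intervalIntegral.integral_mono_interval (by linarith) hab.le (by linarith)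
          · exact Eventually.of_forall fun α => mul_nonneg (hRn α) (hFn α)
          · exact hgc.intervalIntegrable _ _
  rw [intervalIntegral.integral_const_mul] at h1
  have h2 : 2 * h * ((1 - η) * ∫ α in a..b, Fr T α) ≤ 2 * h * (b - a + 2 * η + η) := by
    have : 2 * h * ((1 - η) * ∫ α in a..b, Fr T α) = 2 * h * (1 - η) * ∫ α in a..b, Fr T α := by
      ring
    linarith
  have h3 := le_of_mul_le_mul_left h2 (by positivity)
  have h4 : (1 - η) * ∫ α in a..b, Fr T α ≤ (1 - η) * (b - a + ε) := h3.trans hη2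
  exact le_of_mul_le_mul_left h4 (by linarith)

end H479.P
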