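import Pool.Agent.H479.P.NS

open Finset MeasureTheory Complex Filter Topology

namespace H479.P

open H479.U

/-- coefficients -/
noncomputable def cb (b u : ℝ) (n : ℕ) : ℂ :=
  La n * (Real.sqrt n : ℂ)⁻¹ * Real.exp (-(u - Real.log n) ^ 2 / (2 * b))

lemma cb_sq (b u : ℝ) (hb : 0 < b) (n : ℕ) :
    ‖cb b u n‖ ^ 2 = wn n * Real.exp (-(u - Real.log n) ^ 2 / b) := by
  unfold cb wn La
  rw [norm_mul, norm_mul, norm_inv, Complex.norm_real, Complex.norm_real, Complex.norm_real,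
    Real.norm_of_nonneg (Real.sqrt_nonneg _), Real.norm_of_nonneg (Real.exp_pos _).le,
    Real.norm_of_nonneg ArithmeticFunction.vonMangoldt_nonneg, mul_pow, mul_pow, inv_pow,
    Real.sq_sqrt (Nat.cast_nonneg n), ← Real.exp_nat_mul, div_eq_mul_inv]
  congr 2
  push_cast
  field_simp

lemma ptb_cb (b u t : ℝ) (n : ℕ) : ptb b u t n = cexp (I * t * u) *
    (cb b u n * cexp (I * t * (-((Real.log n : ℝ) : ℂ)))) := by
  unfold ptb cb
  have : cexp (I * t * (u - Real.log n)) = cexp (I * t * u) * cexp (I * t * (-((Real.log n : ℝ) : ℂ))) := by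
    rw [← Complex.exp_add]
    congr 1
    ring
  rw [this]
  ring

lemma ptb_zero (b u t : ℝ) : ptb b u t 0 = 0 := by
  unfold ptb La
  simp

lemma norm_part (b u t : ℝ) (N : ℕ) : ‖∑ n ∈ range (N + 1), ptb b u t n‖ =
    ‖∑ n ∈ Icc 1 N, cb b u n * cexp (I * t * (-((Real.log n : ℝ) : ℂ)))‖ := by
  have h1 : ∑ n ∈ range (N + 1), ptb b u t n = ∑ n ∈ Icc 1 N, ptb b u t n := by
    rw [range_eq_Ico, sum_eq_sum_Ico_succ_bot (by omega), ptb_zero, zero_add]
    rfl
  rw [h1]
  simp_rw [ptb_cb]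
  rw [← mul_sum, norm_mul]
  have : ‖cexp (I * t * u)‖ = 1 := by
    rw [show I * (t : ℂ) * u = ((t * u : ℝ) : ℂ) * I by push_cast; ring,
      Complex.norm_exp_ofReal_mul_I]
  rw [this, one_mul]

/-- partial sums -/
lemma part_ms (b u T : ℝ) (hb : 0 < b) (hT : 4 ≤ T) (N : ℕ) :
    ∫ t in (0 : ℝ)..T, ‖∑ n ∈ range (N + 1), ptb b u t n‖ ^ 2 ≤
      Real.exp 1 * (Real.sqrt Real.pi * T * ∑ n ∈ Icc 1 N,
        (wn n * Real.exp (-(u - Real.log n) ^ 2 / b)) * (1 + 16 * n / T)) := by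
  have hT0 : 0 < T := by linarith
  simp_rw [norm_part]
  obtain ⟨P, hP⟩ : ∃ P : ℝ → ℝ, P = fun t : ℝ => ‖∑ n ∈ Icc 1 N, cb b u n *
    cexp (I * t * (-((Real.log n : ℝ) : ℂ)))‖ ^ 2 := ⟨_, rfl⟩
  have hPc : Continuous P := by rw [hP]; fun_prop
  have hP0 : ∀ t, 0 ≤ P t := fun t => by rw [hP]; positivity
  obtain ⟨B, hB⟩ : ∃ B : ℝ, ∀ t, P t ≤ B := by
    refine ⟨(∑ n ∈ Icc 1 N, ‖cb b u n‖) ^ 2, fun t => ?_⟩
    rw [hP]
    simp only
    apply pow_le_pow_left₀ (norm_nonneg _)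
    refine norm_sum_le_of_le _ fun n _ => ?_
    rw [norm_mul]
    have : ‖cexp (I * t * (-((Real.log n : ℝ) : ℂ)))‖ = 1 := by
      rw [show I * (t : ℂ) * (-((Real.log n : ℝ) : ℂ)) = ((-(t * Real.log n) : ℝ) : ℂ) * I by
        push_cast; ring, Complex.norm_exp_ofReal_mul_I]
    rw [this, mul_one]
  have hint : Integrable (fun t => P t * Real.exp (-(t / T) ^ 2)) := by
    refine (gw_int T hT0).bdd_mul (c := B) hPc.aestronglyMeasurable ?_
    refine Eventually.of_forall fun t => ?_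
    rw [Real.norm_of_nonneg (hP0 t)]
    exact hB t
  have h1 : ∫ t in (0 : ℝ)..T, P t ≤ Real.exp 1 * ∫ t, P t * Real.exp (-(t / T) ^ 2) := by
    rw [intervalIntegral.integral_of_le hT0.le]
    calc ∫ t in Set.Ioc 0 T, P t ≤ ∫ t in Set.Ioc 0 T, Real.exp 1 * (P t * Real.exp (-(t / T) ^ 2)) := by
          refine setIntegral_mono_on ?_ ?_ measurableSet_Ioc fun t ht => ?_
          · exact hPc.integrableOn_Icc.mono_set Set.Ioc_subset_Icc_self
          · exact (hint.const_mul _).integrableOn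
          · have h2 : (t / T) ^ 2 ≤ 1 := by
              have h3 : t / T ≤ 1 := (div_le_one hT0).2 ht.2
              have h4 : 0 ≤ t / T := div_nonneg ht.1.le hT0.le
              nlinarith
            have h3 : 1 ≤ Real.exp 1 * Real.exp (-(t / T) ^ 2) := by
              rw [← Real.exp_add]
              apply Real.one_le_exp
              linarith
            calc P t = P t * 1 := (mul_one _).symm
              _ ≤ P t * (Real.exp 1 * Real.exp (-(t / T) ^ 2)) :=
                  mul_le_mul_of_nonneg_left h3 (hP0 t)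
              _ = _ := by ring
      _ = Real.exp 1 * ∫ t in Set.Ioc 0 T, P t * Real.exp (-(t / T) ^ 2) := by
          rw [integral_const_mul]
      _ ≤ _ := by
          apply mul_le_mul_of_nonneg_left _ (Real.exp_pos _).le
          exact setIntegral_le_integral hint (Eventually.of_forall fun t =>
            mul_nonneg (hP0 t) (Real.exp_pos _).le)
  have h2 := gmvt (Icc 1 N) (cb b u) (fun n => Real.log n) T hT0
  have e : (∫ t, P t * Real.exp (-(t / T) ^ 2)) = ∫ t : ℝ, ‖∑ n ∈ Icc 1 N, cb b u n *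
      cexp (I * t * (-(((fun n : ℕ => Real.log n) n : ℝ) : ℂ)))‖ ^ 2 * Real.exp (-(t / T) ^ 2) := by
    rw [hP]
  have h3 : ∫ t in (0 : ℝ)..T, P t ≤ Real.exp 1 * (Real.sqrt Real.pi * T * ∑ n ∈ Icc 1 N,
      ‖cb b u n‖ ^ 2 * ∑ m ∈ Icc 1 N, Real.exp (-(T ^ 2 * (Real.log m - Real.log n) ^ 2 / 4))) := by
    refine h1.trans (mul_le_mul_of_nonneg_left ?_ (Real.exp_pos _).le)
    rw [e]
    exact h2
  rw [hP] at h3
  refine h3.trans (mul_le_mul_of_nonneg_left (mul_le_mul_of_nonneg_left ?_ (by positivity))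
    (Real.exp_pos _).le)
  refine sum_le_sum fun n hn => ?_
  rw [cb_sq b u hb]
  exact mul_le_mul_of_nonneg_left (near_sum T hT N n (mem_Icc.1 hn).1)
    (mul_nonneg (wn_nonneg n) (Real.exp_pos _).le)

lemma n_exp (b u : ℝ) (hb : 0 < b) (n : ℕ) (hn : 1 ≤ n) :
    n * Real.exp (-(u - Real.log n) ^ 2 / b) ≤
      Real.exp (u + b / 2) * Real.exp (-(u - Real.log n) ^ 2 / (2 * b)) := by
  have hn0 : (0 : ℝ) < n := by exact_mod_cast hn
  have e : (n : ℝ) = Real.exp (Real.log n) := (Real.exp_log hn0).symm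
  calc (n : ℝ) * Real.exp (-(u - Real.log n) ^ 2 / b) =
      Real.exp (Real.log n) * Real.exp (-(u - Real.log n) ^ 2 / b) := by rw [← e]
    _ ≤ _ := by
        rw [← Real.exp_add, ← Real.exp_add]
        apply Real.exp_le_exp.2
        obtain ⟨x, hx⟩ : ∃ x : ℝ, x = Real.log n - u := ⟨_, rfl⟩
        have e1 : Real.log n = u + x := by rw [hx]; ring
        rw [e1]
        have e2 : u + x + -(u - (u + x)) ^ 2 / b - (u + b / 2 + -(u - (u + x)) ^ 2 / (2 * b)) =
            -((x - b) ^ 2 / (2 * b)) := by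
          field_simp
          ring
        have e3 : 0 ≤ (x - b) ^ 2 / (2 * b) := by positivity
        linarith

/-- **mean square of the prime sum with the right error term** -/
theorem PPb_ms2 (b : ℝ) (hb : 0 < b) (hb1 : b ≤ 1) : ∃ K : ℝ, 0 < K ∧ ∀ T : ℝ, 4 ≤ T →
    ∀ u : ℝ, 0 ≤ u → ∫ t in (0 : ℝ)..T, ‖H343.PPb b La u t‖ ^ 2 ≤
      K * ((T + Real.exp u) * (u + 1)) := by
  obtain ⟨K1, hK1, h1⟩ := VVb_le b 1 hb one_pos
  obtain ⟨K2, hK2, h2⟩ := VVb_le (2 * b) 1 (by positivity) one_pos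
  obtain ⟨s1, hs1⟩ : ∃ s : ℝ, s = (1 + 1) * Real.sqrt (Real.pi * b) := ⟨_, rfl⟩
  obtain ⟨s2, hs2⟩ : ∃ s : ℝ, s = (1 + 1) * Real.sqrt (Real.pi * (2 * b)) := ⟨_, rfl⟩
  have hs10 : 0 ≤ s1 := by rw [hs1]; positivity
  have hs20 : 0 ≤ s2 := by rw [hs2]; positivity
  rw [← hs1] at h1
  rw [← hs2] at h2
  obtain ⟨K, hK⟩ : ∃ K : ℝ, K = Real.exp 1 * Real.sqrt Real.pi *
    ((s1 + K1) + 16 * Real.exp (b / 2) * (s2 + K2)) + 1 := ⟨_, rfl⟩
  have hK0 : 0 < K := by rw [hK]; positivity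
  refine ⟨K, hK0, fun T hT u hu => ?_⟩
  have hT0 : 0 < T := by linarith
  obtain ⟨hs1', hv1⟩ := h1 u hu
  obtain ⟨hs2', hv2⟩ := h2 u hu
  have hE : 0 < Real.exp u := Real.exp_pos u
  have hpart : ∀ N : ℕ, ∫ t in (0 : ℝ)..T, ‖∑ n ∈ range (N + 1), ptb b u t n‖ ^ 2 ≤
      K * ((T + Real.exp u) * (u + 1)) := by
    intro N
    refine (part_ms b u T hb hT N).trans ?_
    have a1 : ∑ n ∈ Icc 1 N, wn n * Real.exp (-(u - Real.log n) ^ 2 / b) ≤ (s1 + K1) * (u + 1) := by
      have := hs1'.sum_le_tsum (Icc 1 N) fun n _ => mul_nonneg (wn_nonneg n) (Real.exp_pos _).le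
      have h3 : VVb b u ≤ (s1 + K1) * (u + 1) := by
        have : 0 ≤ K1 * u := by positivity
        nlinarith
      exact this.trans h3
    have a2 : ∑ n ∈ Icc 1 N, wn n * Real.exp (-(u - Real.log n) ^ 2 / (2 * b)) ≤
        (s2 + K2) * (u + 1) := by
      have := hs2'.sum_le_tsum (Icc 1 N) fun n _ => mul_nonneg (wn_nonneg n) (Real.exp_pos _).le
      have h3 : VVb (2 * b) u ≤ (s2 + K2) * (u + 1) := by
        have : 0 ≤ K2 * u := by positivity
        nlinarith
      exact this.trans h3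
    have a3 : ∑ n ∈ Icc 1 N, (wn n * Real.exp (-(u - Real.log n) ^ 2 / b)) * (1 + 16 * n / T) ≤
        (∑ n ∈ Icc 1 N, wn n * Real.exp (-(u - Real.log n) ^ 2 / b)) +
        16 * Real.exp (u + b / 2) / T *
          ∑ n ∈ Icc 1 N, wn n * Real.exp (-(u - Real.log n) ^ 2 / (2 * b)) := by
      rw [mul_sum, ← sum_add_distrib]
      refine sum_le_sum fun n hn => ?_
      have h3 := n_exp b u hb n (mem_Icc.1 hn).1
      have h4 := mul_le_mul_of_nonneg_left h3 (show 0 ≤ 16 / T * wn n by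
        have := wn_nonneg n
        positivity)
      have e1 : wn n * Real.exp (-(u - Real.log n) ^ 2 / b) * (1 + 16 * n / T) =
          wn n * Real.exp (-(u - Real.log n) ^ 2 / b) +
          16 / T * wn n * (n * Real.exp (-(u - Real.log n) ^ 2 / b)) := by ring
      have e2 : 16 * Real.exp (u + b / 2) / T *
          (wn n * Real.exp (-(u - Real.log n) ^ 2 / (2 * b))) = 16 / T * wn n *
          (Real.exp (u + b / 2) * Real.exp (-(u - Real.log n) ^ 2 / (2 * b))) := by ring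
      rw [e1, e2]
      linarith
    have a4 : ∑ n ∈ Icc 1 N, (wn n * Real.exp (-(u - Real.log n) ^ 2 / b)) * (1 + 16 * n / T) ≤
        (s1 + K1) * (u + 1) + 16 * Real.exp (u + b / 2) / T * ((s2 + K2) * (u + 1)) := by
      refine a3.trans (add_le_add a1 (mul_le_mul_of_nonneg_left a2 (by positivity)))
    calc Real.exp 1 * (Real.sqrt Real.pi * T * ∑ n ∈ Icc 1 N,
        (wn n * Real.exp (-(u - Real.log n) ^ 2 / b)) * (1 + 16 * n / T)) ≤
        Real.exp 1 * (Real.sqrt Real.pi * T * ((s1 + K1) * (u + 1) +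
          16 * Real.exp (u + b / 2) / T * ((s2 + K2) * (u + 1)))) := by gcongr
      _ = Real.exp 1 * Real.sqrt Real.pi * ((s1 + K1) * (T * (u + 1)) +
          16 * Real.exp (b / 2) * (s2 + K2) * (Real.exp u * (u + 1))) := by
          rw [Real.exp_add]
          field_simp
      _ ≤ Real.exp 1 * Real.sqrt Real.pi * ((s1 + K1) * ((T + Real.exp u) * (u + 1)) +
          16 * Real.exp (b / 2) * (s2 + K2) * ((T + Real.exp u) * (u + 1))) := by
          have h5 : T * (u + 1) ≤ (T + Real.exp u) * (u + 1) :=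
            mul_le_mul_of_nonneg_right (by linarith) (by linarith)
          have h6 : Real.exp u * (u + 1) ≤ (T + Real.exp u) * (u + 1) :=
            mul_le_mul_of_nonneg_right (by linarith) (by linarith)
          gcongr
      _ ≤ K * ((T + Real.exp u) * (u + 1)) := by
          rw [hK]
          have h7 : 0 ≤ (T + Real.exp u) * (u + 1) := by positivity
          linarith
  have hlim : Tendsto (fun N : ℕ => ∫ t in (0 : ℝ)..T, ‖∑ n ∈ range (N + 1), ptb b u t n‖ ^ 2) atTop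
      (𝓝 (∫ t in (0 : ℝ)..T, ‖H343.PPb b La u t‖ ^ 2)) := by
    obtain ⟨M, hM⟩ : ∃ M : ℝ, M = ∑' n, H370.pt La u n := ⟨_, rfl⟩
    have hsum := H370.pt_summable La_norm u
    refine intervalIntegral.tendsto_integral_filter_of_dominated_convergence
      (fun _ => M ^ 2) ?_ ?_ ?_ ?_
    · refine Eventually.of_forall fun N => ?_
      have : Continuous fun t : ℝ => ‖∑ n ∈ range (N + 1), ptb b u t n‖ ^ 2 := by
        unfold ptb
        fun_prop
      exact this.aestronglyMeasurable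
    · refine Eventually.of_forall fun N => Eventually.of_forall fun t _ => ?_
      rw [Real.norm_of_nonneg (by positivity)]
      apply pow_le_pow_left₀ (norm_nonneg _)
      refine (norm_sum_le_of_le _ fun n _ => norm_ptb_le b u t hb hb1 n).trans ?_
      rw [hM]
      exact hsum.sum_le_tsum _ fun n _ => (norm_nonneg _).trans (norm_ptb_le b u t hb hb1 n)
    · exact intervalIntegrable_const
    · refine Eventually.of_forall fun t _ => ?_
      have h3 := (ptb_summable b u t hb hb1).hasSum.tendsto_sum_nat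
      rw [← PPb_eq] at h3
      exact ((h3.comp (tendsto_add_atTop_nat 1)).norm).pow 2
  exact le_of_tendsto' hlim hpart

end H479.P
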