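import Pool.Agent.H479.P.NB
import Pool.Agent.H479.U.Tri
import Pool.Graph.R_seed8.Y744.PCR.Fin

open Finset MeasureTheory

namespace H479.P

open H479.U H343.ZSide

/-- Montgomery's function (under RH; the real part of `G` without RH) -/
noncomputable def Fr (T α : ℝ) : ℝ := Wp T (α * Real.log T) / (T / (2 * Real.pi) * Real.log T)

lemma Fr_cont (T : ℝ) : Continuous (Fr T) := by
  unfold Fr
  exact ((Wp_cont T).comp (by fun_prop)).div_const _

lemma Fr_nonneg {T : ℝ} (hT : 1 ≤ T) (α : ℝ) : 0 ≤ Fr T α := by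
  unfold Fr
  have h1 := Wp_nonneg T (α * Real.log T)
  have h2 : 0 ≤ Real.log T := Real.log_nonneg hT
  have h3 := Real.pi_pos
  have : 0 ≤ T := by linarith
  positivity

lemma Fr_neg (T α : ℝ) : Fr T (-α) = Fr T α := by
  unfold Fr
  rw [neg_mul, Wp_neg]

/-- the discrepancy on `[1, t]` -/
noncomputable def ST (T t : ℝ) : ℝ := ∫ α in (1 : ℝ)..t, (Fr T α - 1)

lemma Nsc_le (T : ℝ) : Nsc T ≤ N0 T := by
  classical
  unfold Nsc N0
  rw [card_eq_sum_ones]
  push_cast
  calc ∑ x ∈ (Z0 T).filter (fun s => s.re = 1 / 2 ∧ H370.mult riemannZeta s = 1), (1 : ℝ)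
      ≤ ∑ s ∈ (Z0 T).filter (fun s => s.re = 1 / 2 ∧ H370.mult riemannZeta s = 1), mz s := by
        apply sum_le_sum
        intro s hs
        rw [mem_filter] at hs
        unfold mz
        rw [hs.2.2]
        simp
    _ ≤ ∑ s ∈ Z0 T, mz s := by
        apply sum_le_sum_of_subset_of_nonneg (filter_subset _ _)
        intro s _ _
        exact mz_nonneg s

lemma N0_upper (ε : ℝ) (hε : 0 < ε) : ∃ T0 : ℝ, 10 ≤ T0 ∧ ∀ T : ℝ, T0 ≤ T →
    N0 T ≤ (1 + ε) * (T / (2 * Real.pi) * Real.log T) := by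
  obtain ⟨T0, hT0, h⟩ := Pool.Agent.W54.TCF.NT_asymp' ε hε
  refine ⟨T0, hT0, fun T hT => ?_⟩
  have h1 := (h T hT).2
  rw [← Pool.Agent.Y744.sum_Zt] at h1
  exact h1

/-- `F` is bounded on `[1/2, 1]` -/
lemma Fr_near (RH : RiemannHypothesis) : ∃ C T0 : ℝ, 0 < C ∧ 10 ≤ T0 ∧ ∀ T : ℝ, T0 ≤ T →
    ∀ α : ℝ, 1 / 2 ≤ α → α ≤ 1 → Fr T α ≤ C := by
  obtain ⟨K, T0, hK, hT0, h⟩ := Wp_rh RH
  have hπ := Real.pi_pos
  refine ⟨K * (2 * Real.pi), T0, by positivity, hT0, fun T hT α h1 h2 => ?_⟩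
  have hT10 : 10 ≤ T := hT0.trans hT
  have hTpos : 0 < T := by linarith
  have hL : 0 < Real.log T := Real.log_pos (by linarith)
  have h3 := h T hT (α * Real.log T) (by nlinarith) (by nlinarith)
  unfold Fr
  rw [div_le_iff₀ (by positivity)]
  refine h3.trans (le_of_eq ?_)
  field_simp

/-- the lower bound -/
theorem low (RH : RiemannHypothesis) (b ε : ℝ) (hb : 1 ≤ b) (hε : 0 < ε) :
    ∃ T0 : ℝ, 10 ≤ T0 ∧ ∀ T : ℝ, T0 ≤ T →
      -(1 / (6 * b)) - ε ≤ ∫ α in (1 : ℝ)..b, (1 - α / b) * (Fr T α - 1) := by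
  have hb0 : 0 < b := by linarith
  obtain ⟨C, T1, hC, hT1, hnear⟩ := Fr_near RH
  -- the choice of `lam`
  obtain ⟨lam, hlam⟩ : ∃ x : ℝ, x = 1 - min (1 / 2) (ε / (2 * C)) := ⟨_, rfl⟩
  have hm0 : 0 < min (1 / 2 : ℝ) (ε / (2 * C)) := lt_min (by norm_num) (by positivity)
  have hlam1 : lam < 1 := by rw [hlam]; linarith
  have hlam2 : 1 / 2 ≤ lam := by
    rw [hlam]
    have := min_le_left (1 / 2 : ℝ) (ε / (2 * C))
    linarith
  have hlam3 : C * (1 - lam) ≤ ε / 2 := by
    have h1 : 1 - lam ≤ ε / (2 * C) := by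
      rw [hlam]
      have := min_le_right (1 / 2 : ℝ) (ε / (2 * C))
      linarith
    calc C * (1 - lam) ≤ C * (ε / (2 * C)) := mul_le_mul_of_nonneg_left h1 hC.le
      _ = ε / 2 := by field_simp
  obtain ⟨δ, hδ⟩ : ∃ x : ℝ, x = ε / (2 * b) := ⟨_, rfl⟩
  have hδ0 : 0 < δ := by rw [hδ]; positivity
  obtain ⟨T2, hT2, hmain⟩ := main_w w0_win b lam δ hb0 (by linarith) hlam1 (by linarith) hδ0
  obtain ⟨T3, hT3, hN⟩ := N0_upper δ hδ0
  refine ⟨max (max T1 T2) T3, (hT1.trans (le_max_left _ _)).trans (le_max_left _ _),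
    fun T hT => ?_⟩
  have hTT1 : T1 ≤ T := ((le_max_left _ _).trans (le_max_left _ _)).trans hT
  have hTT2 : T2 ≤ T := ((le_max_right _ _).trans (le_max_left _ _)).trans hT
  have hTT3 : T3 ≤ T := (le_max_right _ _).trans hT
  have hT10 : 10 ≤ T := hT1.trans hTT1
  have hTpos : 0 < T := by linarith
  have hπ := Real.pi_pos
  have hL : 0 < Real.log T := Real.log_pos (by linarith)
  have hX : 0 < T / (2 * Real.pi) * Real.log T := by positivity
  have h1 := (hmain T hTT2).1
  have h2 := (h1.trans (Nsc_le T)).trans (hN T hTT3)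
  have h3 := le_of_mul_le_mul_right h2 hX
  rw [Cw_w0 hb] at h3
  -- the deviation
  have eD : Dw w0 b lam T = 2 / b * ∫ α in lam..b, (1 - α / b) * (Fr T α - min α 1) := by
    unfold Dw
    congr 1
    apply intervalIntegral.integral_congr
    intro α hα
    rw [Set.uIcc_of_le (by linarith)] at hα
    simp only
    rw [WW_w0 (div_nonneg (by linarith [hα.1]) hb0.le) ((div_le_one hb0).2 hα.2)]
    rfl
  rw [eD] at h3
  have hFc := Fr_cont T
  have ii : ∀ x y : ℝ, IntervalIntegrable (fun α => (1 - α / b) * (Fr T α - min α 1)) volume x y := by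
    intro x y
    apply Continuous.intervalIntegrable
    fun_prop
  have hsplit := intervalIntegral.integral_add_adjacent_intervals (ii lam 1) (ii 1 b)
  have hI1 : ∫ α in lam..1, (1 - α / b) * (Fr T α - min α 1) ≤ C * (1 - lam) := by
    have h4 : ∫ α in lam..1, (1 - α / b) * (Fr T α - min α 1) ≤ ∫ α in lam..1, C := by
      apply intervalIntegral.integral_mono_on (by linarith) (ii _ _) intervalIntegrable_const
      intro α hα
      have h5 := hnear T hTT1 α (by linarith [hα.1]) hα.2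
      have h6 := Fr_nonneg (T := T) (by linarith) α
      have h7 : 0 ≤ α / b := div_nonneg (by linarith [hα.1]) hb0.le
      have h8 : α / b ≤ 1 := (div_le_one hb0).2 (by linarith [hα.2])
      have h9 : 0 ≤ min α 1 := le_min (by linarith [hα.1]) zero_le_one
      nlinarith
    refine h4.trans (le_of_eq ?_)
    rw [intervalIntegral.integral_const, smul_eq_mul]
    ring
  have hI2 : ∫ α in (1 : ℝ)..b, (1 - α / b) * (Fr T α - min α 1) =
      ∫ α in (1 : ℝ)..b, (1 - α / b) * (Fr T α - 1) := by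
    apply intervalIntegral.integral_congr
    intro α hα
    rw [Set.uIcc_of_le hb] at hα
    simp only
    rw [min_eq_right hα.1]
  rw [← hI2]
  obtain ⟨J, hJ⟩ : ∃ x : ℝ, x = ∫ α in lam..b, (1 - α / b) * (Fr T α - min α 1) := ⟨_, rfl⟩
  rw [← hJ] at h3 hsplit
  have h4 : -(1 / (6 * b)) - ε / 2 ≤ J := by
    have e1 : 1 / (3 * b ^ 2) = 2 / b * (1 / (6 * b)) := by field_simp; norm_num
    have e2 : δ = 2 / b * (ε / 4) := by rw [hδ]; field_simp; norm_num
    have h5 : 2 / b * (-(1 / (6 * b)) - ε / 2) ≤ 2 / b * J := by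
      have : 2 / b * (-(1 / (6 * b)) - ε / 2) = -(1 / (3 * b ^ 2)) - 2 * δ := by
        rw [e1, e2]; ring
      rw [this]
      linarith
    exact le_of_mul_le_mul_left h5 (by positivity)
  linarith

/-- integration by parts -/
lemma parts {g : ℝ → ℝ} (hg : Continuous g) (b : ℝ) :
    ∫ α in (1 : ℝ)..b, (b - α) * g α = ∫ t in (1 : ℝ)..b, (∫ α in (1 : ℝ)..t, g α) := by
  have hS : ∀ t, HasDerivAt (fun t => ∫ α in (1 : ℝ)..t, g α) (g t) t := fun t =>
    intervalIntegral.integral_hasDerivAt_right (hg.intervalIntegrable _ _)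
      (hg.stronglyMeasurableAtFilter _ _) hg.continuousAt
  have hSc : Continuous (fun t => ∫ α in (1 : ℝ)..t, g α) :=
    continuous_iff_continuousAt.2 fun t => (hS t).continuousAt
  have hd : ∀ t, HasDerivAt (fun t => (b - t) * ∫ α in (1 : ℝ)..t, g α)
      ((b - t) * g t - ∫ α in (1 : ℝ)..t, g α) t := by
    intro t
    have h1 := ((hasDerivAt_id t).const_sub b).mul (hS t)
    refine h1.congr_deriv ?_
    simp
    ring
  have h2 := intervalIntegral.integral_eq_sub_of_hasDerivAt (a := 1) (b := b)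
    (fun t _ => hd t) (by
      apply Continuous.intervalIntegrable
      exact ((continuous_const.sub continuous_id).mul hg).sub hSc)
  rw [intervalIntegral.integral_sub] at h2
  · simp at h2
    linarith
  · exact ((continuous_const.sub continuous_id).mul hg).intervalIntegrable _ _
  · exact hSc.intervalIntegrable _ _

lemma ST_cont (T : ℝ) : Continuous (ST T) := by
  have hg : Continuous fun α => Fr T α - 1 := (Fr_cont T).sub continuous_const
  exact continuous_iff_continuousAt.2 fun t =>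
    (intervalIntegral.integral_hasDerivAt_right (hg.intervalIntegrable _ _)
      (hg.stronglyMeasurableAtFilter _ _) hg.continuousAt).continuousAt

theorem lowS (RH : RiemannHypothesis) (b ε : ℝ) (hb : 1 ≤ b) (hε : 0 < ε) :
    ∃ T0 : ℝ, 10 ≤ T0 ∧ ∀ T : ℝ, T0 ≤ T → -(1 / 6) - ε ≤ ∫ t in (1 : ℝ)..b, ST T t := by
  have hb0 : 0 < b := by linarith
  obtain ⟨T0, hT0, h⟩ := low RH b (ε / b) hb (by positivity)
  refine ⟨T0, hT0, fun T hT => ?_⟩
  have h1 := h T hT
  have hg : Continuous fun α => Fr T α - 1 := (Fr_cont T).sub continuous_const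
  have h2 := parts hg b
  have e : ∫ α in (1 : ℝ)..b, (b - α) * (Fr T α - 1) =
      b * ∫ α in (1 : ℝ)..b, (1 - α / b) * (Fr T α - 1) := by
    rw [← intervalIntegral.integral_const_mul]
    apply intervalIntegral.integral_congr
    intro α _
    simp only
    field_simp
  rw [e] at h2
  unfold ST
  rw [← h2]
  have h3 := mul_le_mul_of_nonneg_left h1 hb0.le
  refine le_trans (le_of_eq ?_) h3
  field_simp

end H479.P
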