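import Pool.Agent.H479.U.Fin

open Finset MeasureTheory Complex

namespace H479.P

/-- Fourier transform of the Gaussian weight -/
lemma gauss_ft (T : ℝ) (hT : 0 < T) (l : ℝ) :
    ∫ t : ℝ, cexp (I * l * t) * ((Real.exp (-(t / T) ^ 2) : ℝ) : ℂ) =
      ((Real.sqrt Real.pi * T * Real.exp (-(T ^ 2 * l ^ 2 / 4)) : ℝ) : ℂ) := by
  have h := fourierIntegral_gaussian (b := ((1 / T ^ 2 : ℝ) : ℂ))
    (by rw [Complex.ofReal_re]; positivity) (l : ℂ)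
  have e1 : (fun t : ℝ => cexp (I * l * t) * ((Real.exp (-(t / T) ^ 2) : ℝ) : ℂ)) =
      fun t : ℝ => cexp (I * l * t) * cexp (-((1 / T ^ 2 : ℝ) : ℂ) * (t : ℂ) ^ 2) := by
    funext t
    rw [Complex.ofReal_exp]
    congr 2
    push_cast
    ring
  rw [e1, h]
  have e2 : ((Real.pi : ℂ) / ((1 / T ^ 2 : ℝ) : ℂ)) ^ (1 / 2 : ℂ) =
      ((Real.sqrt Real.pi * T : ℝ) : ℂ) := by
    have h1 : ((Real.pi : ℂ) / ((1 / T ^ 2 : ℝ) : ℂ)) = ((Real.pi * T ^ 2 : ℝ) : ℂ) := by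
      push_cast
      field_simp
    rw [h1]
    have h2 : (1 / 2 : ℂ) = ((1 / 2 : ℝ) : ℂ) := by push_cast; ring
    rw [h2, ← Complex.ofReal_cpow (by positivity)]
    congr 1
    rw [← Real.sqrt_eq_rpow, Real.sqrt_mul Real.pi_pos.le, Real.sqrt_sq hT.le]
  rw [e2]
  have e3 : cexp (-(l : ℂ) ^ 2 / (4 * ((1 / T ^ 2 : ℝ) : ℂ))) =
      ((Real.exp (-(T ^ 2 * l ^ 2 / 4)) : ℝ) : ℂ) := by
    rw [Complex.ofReal_exp]
    congr 1
    have hT' : (T : ℂ) ≠ 0 := by exact_mod_cast hT.ne'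
    push_cast
    field_simp
  rw [e3]
  push_cast
  ring

lemma gw_int (T : ℝ) (hT : 0 < T) : Integrable (fun t : ℝ => Real.exp (-(t / T) ^ 2)) := by
  have := integrable_exp_neg_mul_sq (b := 1 / T ^ 2) (by positivity)
  refine this.congr (Filter.Eventually.of_forall fun t => ?_)
  simp only
  congr 1
  field_simp

/-- Gaussian mean value theorem, general frequencies -/
theorem gmvt (S : Finset ℕ) (c : ℕ → ℂ) (x : ℕ → ℝ) (T : ℝ) (hT : 0 < T) :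
    ∫ t : ℝ, ‖∑ n ∈ S, c n * cexp (I * t * (-(x n : ℂ)))‖ ^ 2 * Real.exp (-(t / T) ^ 2) ≤
      Real.sqrt Real.pi * T * ∑ n ∈ S, ‖c n‖ ^ 2 *
        ∑ m ∈ S, Real.exp (-(T ^ 2 * (x m - x n) ^ 2 / 4)) := by
  have hpt : ∀ t : ℝ, ((‖∑ n ∈ S, c n * cexp (I * t * (-(x n : ℂ)))‖ ^ 2 *
      Real.exp (-(t / T) ^ 2) : ℝ) : ℂ) =
      ∑ n ∈ S, ∑ m ∈ S, (c n * (starRingEnd ℂ) (c m)) *
        (cexp (I * ((x m - x n : ℝ) : ℂ) * t) * ((Real.exp (-(t / T) ^ 2) : ℝ) : ℂ)) := by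
    intro t
    rw [Complex.ofReal_mul, Complex.ofReal_pow, ← Complex.mul_conj', map_sum, sum_mul_sum,
      sum_mul]
    refine sum_congr rfl fun n _ => ?_
    rw [sum_mul]
    refine sum_congr rfl fun m _ => ?_
    rw [map_mul, ← Complex.exp_conj]
    have e1 : (starRingEnd ℂ) (I * t * (-(x m : ℂ))) = I * t * (x m : ℂ) := by
      simp only [map_mul, Complex.conj_I, Complex.conj_ofReal, map_neg]
      ring
    rw [e1]
    have e2 : cexp (I * ((x m - x n : ℝ) : ℂ) * t) = cexp (I * t * (-(x n : ℂ))) *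
        cexp (I * t * (x m : ℂ)) := by
      rw [← Complex.exp_add]
      congr 1
      push_cast
      ring
    rw [e2]
    ring
  have hint : ∀ l : ℝ, Integrable (fun t : ℝ => cexp (I * l * t) *
      ((Real.exp (-(t / T) ^ 2) : ℝ) : ℂ)) := by
    intro l
    refine ((gw_int T hT).ofReal (𝕜 := ℂ)).bdd_mul (c := 1) ?_ ?_
    · exact (by fun_prop : Continuous fun t : ℝ => cexp (I * l * t)).aestronglyMeasurable
    · refine Filter.Eventually.of_forall fun t => ?_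
      rw [show I * (l : ℂ) * t = ((l * t : ℝ) : ℂ) * I by push_cast; ring,
        Complex.norm_exp_ofReal_mul_I]
  have hval : ((∫ t : ℝ, ‖∑ n ∈ S, c n * cexp (I * t * (-(x n : ℂ)))‖ ^ 2 *
      Real.exp (-(t / T) ^ 2) : ℝ) : ℂ) = ∑ n ∈ S, ∑ m ∈ S, (c n * (starRingEnd ℂ) (c m)) *
        ((Real.sqrt Real.pi * T * Real.exp (-(T ^ 2 * (x m - x n) ^ 2 / 4)) : ℝ) : ℂ) := by
    rw [← integral_complex_ofReal]
    simp_rw [hpt]
    rw [integral_finsetSum _ fun n _ => integrable_finsetSum _ fun m _ => (hint _).const_mul _]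
    refine sum_congr rfl fun n _ => ?_
    rw [integral_finsetSum _ fun m _ => (hint _).const_mul _]
    refine sum_congr rfl fun m _ => ?_
    rw [integral_const_mul, gauss_ft T hT]
  have h0 : 0 ≤ ∫ t : ℝ, ‖∑ n ∈ S, c n * cexp (I * t * (-(x n : ℂ)))‖ ^ 2 *
      Real.exp (-(t / T) ^ 2) := integral_nonneg fun t => by positivity
  have h1 : (∫ t : ℝ, ‖∑ n ∈ S, c n * cexp (I * t * (-(x n : ℂ)))‖ ^ 2 *
      Real.exp (-(t / T) ^ 2)) ≤ ∑ n ∈ S, ∑ m ∈ S, (‖c n‖ ^ 2 / 2 + ‖c m‖ ^ 2 / 2) *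
        (Real.sqrt Real.pi * T * Real.exp (-(T ^ 2 * (x m - x n) ^ 2 / 4))) := by
    have e : ‖((∫ t : ℝ, ‖∑ n ∈ S, c n * cexp (I * t * (-(x n : ℂ)))‖ ^ 2 *
      Real.exp (-(t / T) ^ 2) : ℝ) : ℂ)‖ = ∫ t : ℝ, ‖∑ n ∈ S, c n *
        cexp (I * t * (-(x n : ℂ)))‖ ^ 2 * Real.exp (-(t / T) ^ 2) := by
      rw [Complex.norm_real, Real.norm_of_nonneg h0]
    rw [← e, hval]
    refine norm_sum_le_of_le _ fun n _ => norm_sum_le_of_le _ fun m _ => ?_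
    rw [norm_mul, norm_mul, Complex.norm_real, RCLike.norm_conj,
      Real.norm_of_nonneg (by positivity)]
    refine mul_le_mul_of_nonneg_right ?_ (by positivity)
    nlinarith [sq_nonneg (‖c n‖ - ‖c m‖)]
  refine h1.trans (le_of_eq ?_)
  have e2 : ∑ n ∈ S, ∑ m ∈ S, (‖c n‖ ^ 2 / 2 + ‖c m‖ ^ 2 / 2) *
        (Real.sqrt Real.pi * T * Real.exp (-(T ^ 2 * (x m - x n) ^ 2 / 4))) =
      (∑ n ∈ S, ∑ m ∈ S, (‖c n‖ ^ 2 / 2) *
        (Real.sqrt Real.pi * T * Real.exp (-(T ^ 2 * (x m - x n) ^ 2 / 4)))) +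
      ∑ n ∈ S, ∑ m ∈ S, (‖c m‖ ^ 2 / 2) *
        (Real.sqrt Real.pi * T * Real.exp (-(T ^ 2 * (x m - x n) ^ 2 / 4))) := by
    rw [← sum_add_distrib]
    refine sum_congr rfl fun n _ => ?_
    rw [← sum_add_distrib]
    refine sum_congr rfl fun m _ => ?_
    ring
  rw [e2]
  have e3 : ∑ n ∈ S, ∑ m ∈ S, (‖c m‖ ^ 2 / 2) *
        (Real.sqrt Real.pi * T * Real.exp (-(T ^ 2 * (x m - x n) ^ 2 / 4))) =
      ∑ n ∈ S, ∑ m ∈ S, (‖c n‖ ^ 2 / 2) *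
        (Real.sqrt Real.pi * T * Real.exp (-(T ^ 2 * (x m - x n) ^ 2 / 4))) := by
    rw [sum_comm]
    refine sum_congr rfl fun n _ => sum_congr rfl fun m _ => ?_
    rw [show (x n - x m) ^ 2 = (x m - x n) ^ 2 by ring]
  rw [e3, ← two_mul, mul_sum, mul_sum]
  refine sum_congr rfl fun n _ => ?_
  rw [mul_sum, mul_sum, mul_sum]
  refine sum_congr rfl fun m _ => ?_
  ring

end H479.P
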