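import Pool.Agent.H479.P.Low

open Finset MeasureTheory Filter Topology

namespace H479.P

open H479.U

lemma Fr_ii (T a b : ℝ) : IntervalIntegrable (Fr T) volume a b :=
  (Fr_cont T).intervalIntegrable _ _

lemma ST_sub (T a b : ℝ) : ST T b - ST T a = (∫ α in a..b, Fr T α) - (b - a) := by
  have hg : ∀ x y, IntervalIntegrable (fun α => Fr T α - 1) volume x y := fun x y =>
    ((Fr_cont T).sub continuous_const).intervalIntegrable _ _
  unfold ST
  rw [intervalIntegral.integral_interval_sub_left (hg _ _) (hg _ _),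
    intervalIntegral.integral_sub (Fr_ii _ _ _) intervalIntegrable_const]
  simp

lemma ST_one (T : ℝ) : ST T 1 = 0 := by
  unfold ST
  simp

lemma ST_add_mono {T : ℝ} (hT : 1 ≤ T) {s t : ℝ} (hst : s ≤ t) : ST T s + s ≤ ST T t + t := by
  have h1 := ST_sub T s t
  have h2 : 0 ≤ ∫ α in s..t, Fr T α :=
    intervalIntegral.integral_nonneg hst fun α _ => Fr_nonneg hT α
  linarith

/-- the upper bound for the windows in `[1, A]` -/
def UB (l : Filter ℝ) (δ A : ℝ) : Prop := ∀ a b : ℝ, 1 ≤ a → a < b → b ≤ A → ∀ ε : ℝ, 0 < ε →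
  ∀ᶠ T in l, ∫ α in a..b, Fr T α ≤ b - a + δ + ε

lemma UB_unif {l : Filter ℝ} (hl : l ≤ atTop) {δ A : ℝ} (hδ : 0 ≤ δ) (h : UB l δ A) {t0 : ℝ}
    (ht0 : 1 ≤ t0) (htA : t0 < A) {ε : ℝ} (hε : 0 < ε) :
    ∀ᶠ T in l, ∀ t, t0 ≤ t → t ≤ A → ST T t ≤ ST T t0 + δ + ε := by
  obtain ⟨N, hN⟩ := exists_nat_gt ((A - t0) / (ε / 2))
  have hN0 : (0 : ℝ) < N := lt_of_le_of_lt (div_nonneg (by linarith) (by linarith)) hN
  obtain ⟨k, hk⟩ : ∃ k : ℝ, k = (A - t0) / N := ⟨_, rfl⟩
  have hk0 : 0 < k := by rw [hk]; exact div_pos (by linarith) hN0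
  have hkε : k ≤ ε / 2 := by
    rw [div_lt_iff₀ (by positivity)] at hN
    rw [hk, div_le_iff₀ hN0]
    linarith
  have hkN : t0 + N * k = A := by
    rw [hk]
    field_simp
    ring
  have h1 : ∀ᶠ T in l, ∀ i ∈ range (N + 1), ST T (t0 + i * k) ≤ ST T t0 + δ + ε / 2 := by
    rw [Filter.eventually_all_finset]
    intro i hi
    rcases Nat.eq_zero_or_pos i with h0 | h0
    · subst h0
      refine Eventually.of_forall fun T => ?_
      simp only [Nat.cast_zero, zero_mul, add_zero]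
      linarith
    · have hi0 : (0 : ℝ) < i := by exact_mod_cast h0
      have hiN : (i : ℝ) ≤ N := by
        exact_mod_cast Nat.lt_succ_iff.1 (mem_range.1 hi)
      have hik : i * k ≤ N * k := mul_le_mul_of_nonneg_right hiN hk0.le
      have hik0 : 0 < i * k := by positivity
      filter_upwards [h t0 (t0 + i * k) ht0 (by linarith) (by linarith) (ε / 2) (by positivity)]
        with T hT
      have h2 := ST_sub T t0 (t0 + i * k)
      linarith
  filter_upwards [h1, hl (eventually_ge_atTop (1 : ℝ))] with T hT hT1 t ht htA'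
  obtain ⟨i, hi⟩ : ∃ i : ℕ, i = ⌈(t - t0) / k⌉₊ := ⟨_, rfl⟩
  have hq0 : 0 ≤ (t - t0) / k := div_nonneg (by linarith) hk0.le
  have hi1 : (t - t0) / k ≤ i := by rw [hi]; exact Nat.le_ceil _
  have hi2 : (i : ℝ) < (t - t0) / k + 1 := by rw [hi]; exact Nat.ceil_lt_add_one hq0
  have hiN : i ∈ range (N + 1) := by
    rw [mem_range, Nat.lt_succ_iff, hi]
    apply Nat.ceil_le.2
    rw [div_le_iff₀ hk0]
    linarith
  rw [div_le_iff₀ hk0] at hi1
  have hi3 : i * k < t - t0 + k := by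
    have := mul_lt_mul_of_pos_right hi2 hk0
    rw [add_mul, div_mul_cancel₀ _ hk0.ne', one_mul] at this
    exact this
  have h3 := hT i hiN
  have h4 := ST_add_mono hT1 (show t ≤ t0 + i * k by linarith)
  linarith

/-- **the finite range theorem** -/
theorem finite_range (RH : RiemannHypothesis) {l : Filter ℝ} (hl : l ≤ atTop) {δ A : ℝ}
    (hδ : 0 ≤ δ) (h : UB l δ A) {t0 : ℝ} (ht0 : 1 ≤ t0) (htA : t0 < A) {ε : ℝ} (hε : 0 < ε) :
    ∀ᶠ T in l, -δ - (1 / 6 + (t0 - 1) * δ) / (A - t0) - ε ≤ ST T t0 := by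
  have hAt : 0 < A - t0 := by linarith
  -- the choice of `e`
  obtain ⟨e, he⟩ : ∃ e : ℝ, e = ε * (A - t0) / (1 + A) := ⟨_, rfl⟩
  have he0 : 0 < e := by rw [he]; apply div_pos (by positivity); linarith
  obtain ⟨T1, hT1, hlow⟩ := lowS RH A e (by linarith) he0
  have hu : ∀ᶠ T in l, ∀ t, t0 ≤ t → t ≤ A → ST T t ≤ ST T t0 + δ + e :=
    UB_unif hl hδ h ht0 htA he0
  have hu1 : ∀ᶠ T in l, ∀ t, 1 ≤ t → t ≤ A → ST T t ≤ ST T 1 + δ + e :=
    UB_unif hl hδ h le_rfl (by linarith) he0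
  filter_upwards [hu, hu1, hl (eventually_ge_atTop T1)] with T h1 h2 h3
  have h4 := hlow T h3
  have hc := ST_cont T
  rw [← intervalIntegral.integral_add_adjacent_intervals (hc.intervalIntegrable 1 t0)
    (hc.intervalIntegrable t0 A)] at h4
  have h5 : ∫ t in (1 : ℝ)..t0, ST T t ≤ (t0 - 1) * (δ + e) := by
    have := intervalIntegral.integral_mono_on (μ := volume) ht0 (hc.intervalIntegrable 1 t0)
      (intervalIntegrable_const (c := δ + e)) fun t ht => by
        have := h2 t ht.1 (by linarith [ht.2])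
        rw [ST_one] at this
        linarith
    rw [intervalIntegral.integral_const, smul_eq_mul] at this
    exact this
  have h6 : ∫ t in t0..A, ST T t ≤ (A - t0) * (ST T t0 + δ + e) := by
    have := intervalIntegral.integral_mono_on (μ := volume) htA.le (hc.intervalIntegrable t0 A)
      (intervalIntegrable_const (c := ST T t0 + δ + e)) fun t ht => h1 t ht.1 ht.2
    rw [intervalIntegral.integral_const, smul_eq_mul] at this
    exact this
  have h7 : -(1 / 6) - (t0 - 1) * δ - (A - t0) * δ - (1 + A) * e ≤ (A - t0) * ST T t0 := by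
    have : 0 ≤ t0 * e := by positivity
    nlinarith
  have h8 : (1 + A) * e = (A - t0) * ε := by
    rw [he]
    have : 1 + A ≠ 0 := by linarith
    field_simp
  rw [h8] at h7
  have h9 : (A - t0) * (-δ - (1 / 6 + (t0 - 1) * δ) / (A - t0) - ε) =
      -(1 / 6) - (t0 - 1) * δ - (A - t0) * δ - (A - t0) * ε := by
    field_simp
    ring
  have h10 : (A - t0) * (-δ - (1 / 6 + (t0 - 1) * δ) / (A - t0) - ε) ≤ (A - t0) * ST T t0 := by
    rw [h9]; exact h7
  exact le_of_mul_le_mul_left h10 hAt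

/-- the upper half for all windows: the lower bound with the same error -/
theorem lower_all (RH : RiemannHypothesis) {l : Filter ℝ} (hl : l ≤ atTop) {δ : ℝ}
    (hδ : 0 ≤ δ) (h : ∀ A, UB l δ A) {t0 : ℝ} (ht0 : 1 ≤ t0) {ε : ℝ} (hε : 0 < ε) :
    ∀ᶠ T in l, -δ - ε ≤ ST T t0 := by
  obtain ⟨M, hM⟩ : ∃ M : ℝ, M = 1 / 6 + (t0 - 1) * δ := ⟨_, rfl⟩
  have hM0 : 0 < M := by
    rw [hM]
    have : 0 ≤ (t0 - 1) * δ := mul_nonneg (by linarith) hδ
    linarith
  have h1 := finite_range RH hl hδ (h (t0 + 2 * M / ε)) ht0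
    (by have : 0 < 2 * M / ε := by positivity
        linarith) (half_pos hε)
  filter_upwards [h1] with T hT
  rw [← hM] at hT
  have e : M / (t0 + 2 * M / ε - t0) = ε / 2 := by
    rw [add_sub_cancel_left]
    field_simp
  rw [e] at hT
  linarith

/-- the upper half of the conjecture for `F`, in the mean -/
def UpperHalf (l : Filter ℝ) : Prop := ∀ a b : ℝ, 1 ≤ a → a < b → ∀ ε : ℝ, 0 < ε →
  ∀ᶠ T in l, ∫ α in a..b, Fr T α ≤ b - a + ε

theorem ST_lim (RH : RiemannHypothesis) {l : Filter ℝ} (hl : l ≤ atTop) (h : UpperHalf l)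
    {t : ℝ} (ht : 1 ≤ t) : Tendsto (fun T => ST T t) l (𝓝 0) := by
  have hU : ∀ A, UB l 0 A := by
    intro A a b ha hab _ ε hε
    filter_upwards [h a b ha hab ε hε] with T hT
    linarith
  rw [Metric.tendsto_nhds]
  intro ε hε
  rcases ht.eq_or_lt with h1 | h1
  · refine Eventually.of_forall fun T => ?_
    rw [← h1, ST_one, dist_self]
    exact hε
  · filter_upwards [lower_all RH hl le_rfl hU ht (half_pos hε), h 1 t le_rfl h1 (ε / 2)
      (by positivity)] with T h2 h3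
    rw [Real.dist_eq, sub_zero, abs_lt]
    have h4 := ST_sub T 1 t
    rw [ST_one] at h4
    constructor <;> linarith

end H479.P
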