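import Pool.Agent.H479.P.RB

open Finset MeasureTheory Complex

namespace H479.P

open H479.U H343.ZSide

/-- bound for every `v` -/
lemma Pb_rh_all (RH : RiemannHypothesis) : ∃ K T0 : ℝ, 0 < K ∧ 10 ≤ T0 ∧ ∀ T : ℝ, T0 ≤ T →
    ∀ v : ℝ, Pb T ((1 / 2) ^ 2) v ≤ K * ((T + Real.exp |v|) * (|v| + 1) +
        T * ((Real.log T) ^ 2 * Real.exp (-(4 * v ^ 2))) +
        Real.exp (3 / 2 * |v| - 2 * Real.log T)) := by
  obtain ⟨K, T0, hK, hT0, hup⟩ := Pb_rh RH ((1 / 2) ^ 2) 12 (by norm_num) (by norm_num) (by norm_num)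
  obtain ⟨C, hC, hcr⟩ := Pb_crude
  refine ⟨K + C, T0, by positivity, hT0, fun T hT v => ?_⟩
  have hT10 : 10 ≤ T := hT0.trans hT
  have hTpos : 0 < T := by linarith
  have hL : 0 < Real.log T := Real.log_pos (by linarith)
  have hv := abs_nonneg v
  obtain ⟨P1, hP1⟩ : ∃ P1 : ℝ, P1 = (T + Real.exp |v|) * (|v| + 1) := ⟨_, rfl⟩
  obtain ⟨P2, hP2⟩ : ∃ P2 : ℝ, P2 = T * ((Real.log T) ^ 2 * Real.exp (-(4 * v ^ 2))) := ⟨_, rfl⟩
  obtain ⟨P3, hP3⟩ : ∃ P3 : ℝ, P3 = Real.exp (3 / 2 * |v| - 2 * Real.log T) := ⟨_, rfl⟩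
  have h10 : 0 ≤ P1 := by rw [hP1]; positivity
  have h20 : 0 ≤ P2 := by rw [hP2]; positivity
  have h30 : 0 ≤ P3 := by rw [hP3]; positivity
  rw [← hP1, ← hP2, ← hP3]
  by_cases hvA : |v| ≤ 12 * Real.log T
  · have h1 := hup T hT |v| hv hvA
    have h2 : Pb T ((1 / 2) ^ 2) |v| = Pb T ((1 / 2) ^ 2) v := by
      rcases abs_cases v with h | h
      · rw [h.1]
      · rw [h.1, Pb_neg]
    have h3 : -|v| ^ 2 / (1 / 2 : ℝ) ^ 2 = -(4 * v ^ 2) := by rw [sq_abs]; ring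
    rw [h2, h3, ← hP1, ← hP2] at h1
    nlinarith
  · push Not at hvA
    have h1 := hcr ((1 / 2) ^ 2) T v (by norm_num) (by norm_num) (by linarith)
    refine h1.trans ?_
    have h3 : T ^ 4 * Real.exp |v| ≤ P3 := by
      have h4 : T ^ 4 = Real.exp (4 * Real.log T) := by
        have : Real.exp (((4 : ℕ) : ℝ) * Real.log T) = (Real.exp (Real.log T)) ^ 4 :=
          Real.exp_nat_mul _ _
        rw [Real.exp_log hTpos] at this
        rw [← this]
        norm_num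
      rw [h4, ← Real.exp_add, hP3]
      apply Real.exp_le_exp.2
      linarith
    calc C * T ^ 4 * Real.exp |v| = C * (T ^ 4 * Real.exp |v|) := by ring
      _ ≤ C * P3 := mul_le_mul_of_nonneg_left h3 hC.le
      _ ≤ (K + C) * (P1 + P2 + P3) := by nlinarith

/-- majorant of the integrand -/
lemma maj_pt (T u L K a : ℝ) (hT : 1 ≤ T) (hL : 0 ≤ L) (hK : 0 ≤ K) (hu : 0 ≤ u) (huL : u ≤ L)
    (P : ℝ → ℝ) (hP : ∀ v, P v ≤ K * ((T + Real.exp |v|) * (|v| + 1) +
        T * (L ^ 2 * Real.exp (-(4 * v ^ 2))) + Real.exp (3 / 2 * |v| - 2 * L))) :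
    Real.exp (-2 * |a|) * P (u + a) ≤
      K * (2 * ((T + Real.exp u) * (u + 1)) + 1) * Real.exp (-(1 / 2) * |a|) +
      K * (T * L ^ 2 * (2 * Real.exp (-2 * u))) * Real.exp (-2 * (a - (-u)) ^ 2) := by
  have h1 := mul_le_mul_of_nonneg_left (hP (u + a)) (Real.exp_pos (-2 * |a|)).le
  refine h1.trans ?_
  have ha := abs_nonneg a
  have hua : |u + a| ≤ u + |a| := by
    refine (abs_add_le _ _).trans ?_
    rw [abs_of_nonneg hu]
  have hE : 0 < Real.exp u := Real.exp_pos u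
  obtain ⟨q, hq⟩ : ∃ q : ℝ, q = Real.exp (-(1 / 2) * |a|) := ⟨_, rfl⟩
  have hq0 : 0 < q := by rw [hq]; exact Real.exp_pos _
  -- first part
  have p1 : Real.exp (-2 * |a|) * ((T + Real.exp |u + a|) * (|u + a| + 1)) ≤
      2 * ((T + Real.exp u) * (u + 1)) * q := by
    have e1 : T + Real.exp |u + a| ≤ Real.exp |a| * (T + Real.exp u) := by
      have h2 : Real.exp |u + a| ≤ Real.exp |a| * Real.exp u := by
        rw [← Real.exp_add]
        apply Real.exp_le_exp.2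
        linarith
      have h3 : T ≤ Real.exp |a| * T := by
        have := Real.one_le_exp ha
        nlinarith
      rw [mul_add]
      linarith
    have e2 : |u + a| + 1 ≤ (u + 1) * (2 * Real.exp (1 / 2 * |a|)) := by
      have h2 := Real.add_one_le_exp (1 / 2 * |a|)
      have h3 : |u + a| + 1 ≤ (u + 1) * (1 + |a|) := by nlinarith
      have h4 : (1 + |a|) ≤ 2 * Real.exp (1 / 2 * |a|) := by linarith
      exact h3.trans (mul_le_mul_of_nonneg_left h4 (by linarith))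
    calc Real.exp (-2 * |a|) * ((T + Real.exp |u + a|) * (|u + a| + 1)) ≤
        Real.exp (-2 * |a|) * ((Real.exp |a| * (T + Real.exp u)) *
          ((u + 1) * (2 * Real.exp (1 / 2 * |a|)))) := by
          apply mul_le_mul_of_nonneg_left _ (Real.exp_pos _).le
          apply mul_le_mul e1 e2 (by positivity) (by positivity)
      _ = 2 * ((T + Real.exp u) * (u + 1)) *
          (Real.exp (-2 * |a|) * Real.exp |a| * Real.exp (1 / 2 * |a|)) := by ring
      _ = _ := by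
          rw [← Real.exp_add, ← Real.exp_add, hq]
          congr 2
          ring
  have p2 : Real.exp (-2 * |a|) * Real.exp (3 / 2 * |u + a| - 2 * L) ≤ q := by
    rw [← Real.exp_add, hq]
    apply Real.exp_le_exp.2
    linarith
  have p3 : Real.exp (-2 * |a|) * Real.exp (-(4 * (u + a) ^ 2)) ≤
      2 * Real.exp (-2 * u) * Real.exp (-2 * (a - (-u)) ^ 2) := by
    have h2 : Real.exp (1 / 2) ≤ 2 := by
      have := Real.exp_one_lt_d9
      have h5 : Real.exp (1 / 2) ^ 2 = Real.exp 1 := by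
        rw [← Real.exp_nat_mul]; norm_num
      nlinarith [Real.exp_pos (1 / 2 : ℝ)]
    have h3 : Real.exp (-2 * |a|) * Real.exp (-(4 * (u + a) ^ 2)) ≤
        Real.exp (1 / 2) * (Real.exp (-2 * u) * Real.exp (-2 * (a - (-u)) ^ 2)) := by
      rw [← Real.exp_add, ← Real.exp_add, ← Real.exp_add]
      apply Real.exp_le_exp.2
      have h4 : u ≤ |a| + |u + a| := by
        linarith [le_abs_self (u + a), neg_abs_le a]
      have h5 : 2 * |u + a| ≤ 1 / 2 + 2 * |u + a| ^ 2 := by nlinarith [sq_nonneg (2 * |u + a| - 1)]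
      rw [sq_abs] at h5
      have h6 : (a - (-u)) ^ 2 = (u + a) ^ 2 := by ring
      rw [h6]
      linarith
    calc _ ≤ _ := h3
      _ ≤ 2 * (Real.exp (-2 * u) * Real.exp (-2 * (a - (-u)) ^ 2)) := by gcongr
      _ = _ := by ring
  have e : Real.exp (-2 * |a|) * (K * ((T + Real.exp |u + a|) * (|u + a| + 1) +
        T * (L ^ 2 * Real.exp (-(4 * (u + a) ^ 2))) + Real.exp (3 / 2 * |u + a| - 2 * L))) =
      K * (Real.exp (-2 * |a|) * ((T + Real.exp |u + a|) * (|u + a| + 1))) +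
      K * (T * L ^ 2 * (Real.exp (-2 * |a|) * Real.exp (-(4 * (u + a) ^ 2)))) +
      K * (Real.exp (-2 * |a|) * Real.exp (3 / 2 * |u + a| - 2 * L)) := by ring
  rw [e]
  have b1 := mul_le_mul_of_nonneg_left p1 hK
  have b2 := mul_le_mul_of_nonneg_left p2 hK
  have b3 : K * (T * L ^ 2 * (Real.exp (-2 * |a|) * Real.exp (-(4 * (u + a) ^ 2)))) ≤
      K * (T * L ^ 2 * (2 * Real.exp (-2 * u) * Real.exp (-2 * (a - (-u)) ^ 2))) :=
    mul_le_mul_of_nonneg_left (mul_le_mul_of_nonneg_left p3 (by positivity)) hK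
  rw [← hq]
  calc _ ≤ K * (2 * ((T + Real.exp u) * (u + 1)) * q) +
      K * (T * L ^ 2 * (2 * Real.exp (-2 * u) * Real.exp (-2 * (a - (-u)) ^ 2))) + K * q := by
        linarith
    _ = _ := by ring

/-- **`F` is bounded on `[1/2, 1]` under RH** -/
theorem Wp_rh (RH : RiemannHypothesis) : ∃ K T0 : ℝ, 0 < K ∧ 10 ≤ T0 ∧ ∀ T : ℝ, T0 ≤ T →
    ∀ u : ℝ, Real.log T / 2 ≤ u → u ≤ Real.log T → Wp T u ≤ K * (T * Real.log T) := by
  obtain ⟨K, T0, hK, hT0, hP⟩ := Pb_rh_all RH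
  obtain ⟨I1, hI1⟩ : ∃ I : ℝ, I = ∫ a : ℝ, Real.exp (-(1 / 2) * |a|) := ⟨_, rfl⟩
  obtain ⟨I2, hI2⟩ : ∃ I : ℝ, I = Real.sqrt (Real.pi / 2) := ⟨_, rfl⟩
  have hI10 : 0 ≤ I1 := by rw [hI1]; exact integral_nonneg fun a => (Real.exp_pos _).le
  have hI20 : 0 ≤ I2 := by rw [hI2]; exact Real.sqrt_nonneg _
  refine ⟨Real.exp (3 / 4) * (K * 9 * I1 + K * 2 * I2) + 1, T0, by positivity, hT0,
    fun T hT u hu1 hu2 => ?_⟩
  have hT10 : 10 ≤ T := hT0.trans hT
  have hT0' : 0 < T := by linarith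
  obtain ⟨L, hL⟩ : ∃ L : ℝ, L = Real.log T := ⟨_, rfl⟩
  have hL1 : 1 ≤ L := by
    rw [hL, Real.le_log_iff_exp_le hT0']
    have := Real.exp_one_lt_d9
    linarith
  have hLT : L ≤ T := by
    have := Real.log_le_sub_one_of_pos hT0'
    linarith
  have hPT := hP T hT
  rw [← hL] at hu1 hu2 hPT ⊢
  have hu0 : 0 ≤ u := by linarith
  have h1 := Wp_le (1 / 2) T u (by norm_num)
  obtain ⟨M, hM⟩ : ∃ M : ℝ → ℝ, M = fun a =>
      K * (2 * ((T + Real.exp u) * (u + 1)) + 1) * Real.exp (-(1 / 2) * |a|) +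
      K * (T * L ^ 2 * (2 * Real.exp (-2 * u))) * Real.exp (-2 * (a - (-u)) ^ 2) := ⟨_, rfl⟩
  have i1 : Integrable (fun a : ℝ => Real.exp (-(1 / 2) * |a|)) := by
    exact iea (1 / 2) (by norm_num)
  have i2 : Integrable (fun a : ℝ => Real.exp (-2 * (a - (-u)) ^ 2)) :=
    gauss_int_b 2 (-u) (by norm_num)
  have hMi : Integrable M := by
    rw [hM]
    exact (i1.const_mul _).add (i2.const_mul _)
  have hMv : ∫ a, M a = K * (2 * ((T + Real.exp u) * (u + 1)) + 1) * I1 +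
      K * (T * L ^ 2 * (2 * Real.exp (-2 * u))) * I2 := by
    rw [hM]
    rw [integral_add (i1.const_mul _) (i2.const_mul _), integral_const_mul, integral_const_mul,
      gauss_val_b, ← hI1, ← hI2]
  have h2 : ∫ a : ℝ, Real.exp (-2 * |a|) * Pb T ((1 / 2) ^ 2) (u + a) ≤ ∫ a, M a := by
    refine integral_mono (smooth_eq ((1 / 2) ^ 2) T u (by norm_num)).1 hMi fun a => ?_
    simp only [hM]
    exact maj_pt T u L K a (by linarith) (by linarith) hK.le hu0 hu2 (Pb T ((1 / 2) ^ 2)) hPT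
  rw [hMv] at h2
  have hEu : Real.exp u ≤ T := by
    rw [← Real.exp_log hT0', ← hL]
    exact Real.exp_le_exp.2 hu2
  have h3 : 2 * ((T + Real.exp u) * (u + 1)) + 1 ≤ 9 * (T * L) := by
    have a1 : (T + Real.exp u) * (u + 1) ≤ (2 * T) * (2 * L) := by
      apply mul_le_mul (by linarith) (by linarith) (by linarith) (by linarith)
    have a2 : 1 ≤ T * L := by nlinarith
    nlinarith
  have h4 : T * L ^ 2 * (2 * Real.exp (-2 * u)) ≤ 2 * (T * L) := by
    have a1 : Real.exp (-2 * u) ≤ T⁻¹ := by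
      rw [← Real.exp_log hT0', ← Real.exp_neg, ← hL]
      exact Real.exp_le_exp.2 (by linarith)
    calc T * L ^ 2 * (2 * Real.exp (-2 * u)) ≤ T * L ^ 2 * (2 * T⁻¹) := by gcongr
      _ = 2 * (L * L) := by field_simp
      _ ≤ 2 * (T * L) := by gcongr
  have h5 : K * (2 * ((T + Real.exp u) * (u + 1)) + 1) * I1 +
      K * (T * L ^ 2 * (2 * Real.exp (-2 * u))) * I2 ≤ (K * 9 * I1 + K * 2 * I2) * (T * L) := by
    calc _ ≤ K * (9 * (T * L)) * I1 + K * (2 * (T * L)) * I2 := by gcongr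
      _ = _ := by ring
  have h6 : Wp T u ≤ Real.exp (3 / 4) * ((K * 9 * I1 + K * 2 * I2) * (T * L)) := by
    calc Wp T u = Real.exp (3 / 4) * (Real.exp (-(3 / 2) * (1 / 2)) * Wp T u) := by
          rw [← mul_assoc, ← Real.exp_add]
          norm_num
      _ ≤ _ := by
          apply mul_le_mul_of_nonneg_left _ (Real.exp_pos _).le
          linarith
  refine h6.trans ?_
  have : 0 ≤ T * L := by positivity
  nlinarith

end H479.P
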