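import Pool.Agent.H479.P.MVG

open Finset MeasureTheory Complex

namespace H479.P

/-- auxiliary function for the telescoping sum -/
noncomputable def gA (A x : ℝ) : ℝ := if x ≤ A then 2 * A - x else A ^ 2 / x

lemma gA_nonneg (A x : ℝ) (hA : 0 < A) : 0 ≤ gA A x := by
  unfold gA
  split_ifs with h
  · linarith
  · push Not at h
    have : 0 < x := by linarith
    positivity

lemma gA_step (A : ℝ) (hA : 0 < A) (j : ℕ) :
    min 1 (A ^ 2 / ((j : ℝ) + 1) ^ 2) ≤ gA A j - gA A (j + 1) := by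
  have hj : (0 : ℝ) ≤ j := Nat.cast_nonneg j
  unfold gA
  by_cases h1 : (j : ℝ) + 1 ≤ A
  · rw [if_pos (by linarith), if_pos h1]
    refine (min_le_left _ _).trans ?_
    linarith
  · push Not at h1
    rw [if_neg (not_le.2 h1)]
    refine (min_le_right _ _).trans ?_
    by_cases h2 : (j : ℝ) ≤ A
    · rw [if_pos h2]
      obtain ⟨y, hy⟩ : ∃ y : ℝ, y = A / (j + 1) := ⟨_, rfl⟩
      have e1 : A ^ 2 / ((j : ℝ) + 1) ^ 2 = y ^ 2 := by rw [hy, div_pow]
      have e2 : A ^ 2 / ((j : ℝ) + 1) = y ^ 2 * (j + 1) := by rw [hy]; field_simp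
      have e3 : A = y * (j + 1) := by rw [hy]; field_simp
      rw [e1, e2]
      have hy1 : y < 1 := by rw [hy, div_lt_one (by linarith)]; exact h1
      have hy0 : 0 < y := by rw [hy]; positivity
      have h3 : (j + 1 : ℝ) * (1 - y) ≤ 1 := by
        have : (j + 1 : ℝ) * (1 - y) = (j + 1) - A := by rw [mul_sub, mul_one]; linarith
        linarith
      have h4 : (j + 1 : ℝ) * (1 - y) * (1 - y) ≤ 1 * (1 - y) :=
        mul_le_mul_of_nonneg_right h3 (by linarith)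
      have h5 : 2 * A - j - y ^ 2 * (j + 1) = 1 - (j + 1 : ℝ) * (1 - y) * (1 - y) := by
        rw [e3]; ring
      rw [h5]
      nlinarith
    · push Not at h2
      rw [if_neg (not_le.2 h2)]
      have hj0 : (0 : ℝ) < j := by linarith
      rw [div_sub_div _ _ hj0.ne' (by positivity), div_le_div_iff₀ (by positivity) (by positivity)]
      have : 0 ≤ A ^ 2 * (j + 1) := by positivity
      nlinarith

lemma min_sum (A : ℝ) (hA : 0 < A) (J : ℕ) :
    ∑ j ∈ range J, min 1 (A ^ 2 / ((j : ℝ) + 1) ^ 2) ≤ 2 * A := by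
  have h1 : ∑ j ∈ range J, min 1 (A ^ 2 / ((j : ℝ) + 1) ^ 2) ≤
      ∑ j ∈ range J, (gA A j - gA A ((j + 1 : ℕ) : ℝ)) := by
    refine sum_le_sum fun j _ => ?_
    push_cast
    exact gA_step A hA j
  refine h1.trans ?_
  rw [sum_range_sub' (fun j : ℕ => gA A j)]
  have h2 := gA_nonneg A J hA
  have h3 : gA A ((0 : ℕ) : ℝ) = 2 * A := by
    unfold gA
    rw [if_pos (by push_cast; exact hA.le)]
    push_cast
    ring
  rw [h3]
  linarith

/-- decay of the Gaussian weights -/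
lemma ker_decay (T : ℝ) (hT : 4 ≤ T) (m n : ℕ) (hm : 1 ≤ m) (hn : 1 ≤ n) :
    Real.exp (-(T ^ 2 * (Real.log m - Real.log n) ^ 2 / 4)) * ((m : ℝ) - n) ^ 2 ≤
      (4 * n / T) ^ 2 := by
  have hm0 : (0 : ℝ) < m := by exact_mod_cast hm
  have hn0 : (0 : ℝ) < n := by exact_mod_cast hn
  obtain ⟨v, hv⟩ : ∃ v : ℝ, v = Real.log m - Real.log n := ⟨_, rfl⟩
  rw [← hv]
  have e1 : (m : ℝ) = n * Real.exp v := by
    rw [hv, Real.exp_sub, Real.exp_log hm0, Real.exp_log hn0]
    field_simp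
  have e2 : ((m : ℝ) - n) ^ 2 = (n : ℝ) ^ 2 * (Real.exp v - 1) ^ 2 := by rw [e1]; ring
  rw [e2]
  have h1 : |Real.exp v - 1| ≤ |v| * Real.exp |v| := by
    rcases le_or_gt 0 v with h | h
    · rw [abs_of_nonneg h, abs_of_nonneg (by linarith [Real.one_le_exp h])]
      have h2 := Real.add_one_le_exp (-v)
      have h3 : Real.exp (-v) * Real.exp v = 1 := by rw [← Real.exp_add]; simp
      nlinarith [Real.exp_pos v]
    · have h2 := Real.add_one_le_exp v
      have h3 : Real.exp v < 1 := by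
        rw [← Real.exp_zero]; exact Real.exp_lt_exp.2 h
      rw [abs_of_neg h, abs_of_neg (by linarith)]
      have h4 : 1 ≤ Real.exp (-v) := Real.one_le_exp (by linarith)
      nlinarith
  have h2 : (Real.exp v - 1) ^ 2 ≤ v ^ 2 * Real.exp (2 * |v|) := by
    rw [← sq_abs (Real.exp v - 1)]
    calc |Real.exp v - 1| ^ 2 ≤ (|v| * Real.exp |v|) ^ 2 := by gcongr
      _ = v ^ 2 * Real.exp (2 * |v|) := by
        rw [mul_pow, sq_abs, ← Real.exp_nat_mul]
        push_cast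
        ring
  have hT0 : 0 < T := by linarith
  obtain ⟨q, hq⟩ : ∃ q : ℝ, q = T ^ 2 * v ^ 2 / 8 := ⟨_, rfl⟩
  have hq0 : 0 ≤ q := by rw [hq]; positivity
  have h3 : q * Real.exp (-q) ≤ 1 := by
    have := Real.add_one_le_exp q
    have h4 : Real.exp (-q) * Real.exp q = 1 := by rw [← Real.exp_add]; simp
    have h5 := Real.exp_pos (-q)
    nlinarith
  have h4 : Real.exp (2 * |v| - q) ≤ 2 := by
    have h5 : 2 * |v| - q ≤ 1 / 2 := by
      rw [hq]
      have h6 : v ^ 2 = |v| ^ 2 := (sq_abs v).symm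
      rw [h6]
      have h7 : 16 * |v| ^ 2 ≤ T ^ 2 * |v| ^ 2 := by
        apply mul_le_mul_of_nonneg_right _ (sq_nonneg _)
        nlinarith
      nlinarith [sq_nonneg (2 * |v| - 1)]
    calc Real.exp (2 * |v| - q) ≤ Real.exp (1 / 2) := Real.exp_le_exp.2 h5
      _ ≤ 2 := by
        have := Real.exp_one_lt_d9
        have h6 : Real.exp (1 / 2) ^ 2 = Real.exp 1 := by
          rw [← Real.exp_nat_mul]; norm_num
        nlinarith [Real.exp_pos (1 / 2 : ℝ)]
  have h5 : Real.exp (-(T ^ 2 * v ^ 2 / 4)) * (v ^ 2 * Real.exp (2 * |v|)) * T ^ 2 =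
      8 * (q * Real.exp (-q)) * Real.exp (2 * |v| - q) := by
    have h6 : Real.exp (-(T ^ 2 * v ^ 2 / 4)) * Real.exp (2 * |v|) =
        Real.exp (-q) * Real.exp (2 * |v| - q) := by
      rw [← Real.exp_add, ← Real.exp_add]
      congr 1
      rw [hq]; ring
    have h7 : v ^ 2 * T ^ 2 = 8 * q := by rw [hq]; ring
    calc Real.exp (-(T ^ 2 * v ^ 2 / 4)) * (v ^ 2 * Real.exp (2 * |v|)) * T ^ 2
        = (v ^ 2 * T ^ 2) * (Real.exp (-(T ^ 2 * v ^ 2 / 4)) * Real.exp (2 * |v|)) := by ring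
      _ = _ := by rw [h6, h7]; ring
  have h6 : Real.exp (-(T ^ 2 * v ^ 2 / 4)) * (v ^ 2 * Real.exp (2 * |v|)) * T ^ 2 ≤ 16 := by
    rw [h5]
    have h7 : 0 ≤ q * Real.exp (-q) := by positivity
    calc 8 * (q * Real.exp (-q)) * Real.exp (2 * |v| - q) ≤ 8 * 1 * 2 := by gcongr
      _ = 16 := by norm_num
  have h7 : (4 * (n : ℝ) / T) ^ 2 = (n : ℝ) ^ 2 * (16 / T ^ 2) := by ring
  rw [h7]
  have h8 : Real.exp (-(T ^ 2 * v ^ 2 / 4)) * (Real.exp v - 1) ^ 2 ≤ 16 / T ^ 2 := by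
    rw [le_div_iff₀ (by positivity)]
    refine le_trans ?_ h6
    gcongr
  calc Real.exp (-(T ^ 2 * v ^ 2 / 4)) * ((n : ℝ) ^ 2 * (Real.exp v - 1) ^ 2) =
      (n : ℝ) ^ 2 * (Real.exp (-(T ^ 2 * v ^ 2 / 4)) * (Real.exp v - 1) ^ 2) := by ring
    _ ≤ _ := by gcongr

lemma ker_min (T : ℝ) (hT : 4 ≤ T) (m n : ℕ) (hm : 1 ≤ m) (hn : 1 ≤ n) (j : ℕ)
    (hj : |(m : ℝ) - n| = j + 1) :
    Real.exp (-(T ^ 2 * (Real.log m - Real.log n) ^ 2 / 4)) ≤
      min 1 ((4 * n / T) ^ 2 / ((j : ℝ) + 1) ^ 2) := by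
  refine le_min ?_ ?_
  · apply Real.exp_le_one_iff.2
    have : 0 ≤ T ^ 2 * (Real.log m - Real.log n) ^ 2 / 4 := by positivity
    linarith
  · rw [le_div_iff₀ (by positivity), ← hj, sq_abs]
    exact ker_decay T hT m n hm hn

lemma sum_inj_le (A : Finset ℕ) (J : ℕ) (φ : ℕ → ℕ) (f g : ℕ → ℝ) (hg : ∀ j, 0 ≤ g j)
    (hφ : ∀ m ∈ A, φ m ∈ range J) (hinj : Set.InjOn φ A) (hfg : ∀ m ∈ A, f m ≤ g (φ m)) :
    ∑ m ∈ A, f m ≤ ∑ j ∈ range J, g j := by
  classical
  calc ∑ m ∈ A, f m ≤ ∑ m ∈ A, g (φ m) := sum_le_sum hfg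
    _ = ∑ j ∈ A.image φ, g j := by rw [sum_image hinj]
    _ ≤ ∑ j ∈ range J, g j := by
        apply sum_le_sum_of_subset_of_nonneg
        · intro j hj
          obtain ⟨m, hm, rfl⟩ := mem_image.1 hj
          exact hφ m hm
        · intro j _ _
          exact hg j

/-- the sum over `m` -/
theorem near_sum (T : ℝ) (hT : 4 ≤ T) (N n : ℕ) (hn : 1 ≤ n) :
    ∑ m ∈ Icc 1 N, Real.exp (-(T ^ 2 * (Real.log m - Real.log n) ^ 2 / 4)) ≤
      1 + 16 * n / T := by
  classical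
  have hn0 : (0 : ℝ) < n := by exact_mod_cast hn
  have hA : 0 < 4 * (n : ℝ) / T := by
    have : 0 < T := by linarith
    positivity
  obtain ⟨f, hf⟩ : ∃ f : ℕ → ℝ, f = fun m : ℕ =>
    Real.exp (-(T ^ 2 * (Real.log (m : ℝ) - Real.log n) ^ 2 / 4)) := ⟨_, rfl⟩
  have hf0 : ∀ m, 0 ≤ f m := fun m => by rw [hf]; exact (Real.exp_pos _).le
  have hg0 : ∀ j : ℕ, 0 ≤ min 1 ((4 * (n : ℝ) / T) ^ 2 / ((j : ℝ) + 1) ^ 2) := fun j => by
    apply le_min <;> positivity
  have h1 : ∑ m ∈ (Icc 1 N).filter (fun m => n < m), f m ≤ 2 * (4 * n / T) := by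
    refine le_trans ?_ (min_sum (4 * n / T) hA N)
    refine sum_inj_le _ N (fun m => m - n - 1) f _ hg0 ?_ ?_ ?_
    · intro m hm
      rw [mem_filter, mem_Icc] at hm
      rw [mem_range]
      omega
    · intro a ha b hb hab
      rw [mem_coe, mem_filter, mem_Icc] at ha hb
      simp only at hab
      omega
    · intro m hm
      rw [mem_filter, mem_Icc] at hm
      rw [hf]
      refine ker_min T hT m n hm.1.1 hn _ ?_
      have hmn : n + 1 ≤ m := hm.2
      have : ((m - n - 1 : ℕ) : ℝ) = (m : ℝ) - n - 1 := by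
        rw [Nat.sub_sub, Nat.cast_sub hmn]
        push_cast
        ring
      rw [this]
      have h2 : (n : ℝ) + 1 ≤ m := by exact_mod_cast hmn
      rw [abs_of_nonneg (by linarith)]
      ring
  have h2 : ∑ m ∈ (Icc 1 N).filter (fun m => m < n), f m ≤ 2 * (4 * n / T) := by
    refine le_trans ?_ (min_sum (4 * n / T) hA n)
    refine sum_inj_le _ n (fun m => n - m - 1) f _ hg0 ?_ ?_ ?_
    · intro m hm
      rw [mem_filter, mem_Icc] at hm
      rw [mem_range]
      omega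
    · intro a ha b hb hab
      rw [mem_coe, mem_filter, mem_Icc] at ha hb
      simp only at hab
      omega
    · intro m hm
      rw [mem_filter, mem_Icc] at hm
      rw [hf]
      refine ker_min T hT m n hm.1.1 hn _ ?_
      have hmn : m + 1 ≤ n := hm.2
      have : ((n - m - 1 : ℕ) : ℝ) = (n : ℝ) - m - 1 := by
        rw [Nat.sub_sub, Nat.cast_sub hmn]
        push_cast
        ring
      rw [this]
      have h2 : (m : ℝ) + 1 ≤ n := by exact_mod_cast hmn
      rw [abs_of_nonpos (by linarith)]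
      ring
  have h3 : ∑ m ∈ Icc 1 N, f m ≤ (∑ m ∈ (Icc 1 N).filter (fun m => n < m), f m) +
      (∑ m ∈ (Icc 1 N).filter (fun m => m < n), f m) + f n := by
    have e1 : ∑ m ∈ Icc 1 N, f m = (∑ m ∈ (Icc 1 N).filter (fun m => n < m), f m) +
        ∑ m ∈ (Icc 1 N).filter (fun m => ¬ n < m), f m := (sum_filter_add_sum_filter_not _ _ _).symm
    have e2 : ∑ m ∈ (Icc 1 N).filter (fun m => ¬ n < m), f m ≤
        (∑ m ∈ (Icc 1 N).filter (fun m => m < n), f m) + f n := by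
      have e3 : (Icc 1 N).filter (fun m => ¬ n < m) ⊆
          insert n ((Icc 1 N).filter (fun m => m < n)) := by
        intro m hm
        rw [mem_filter] at hm
        rw [mem_insert, mem_filter]
        rcases lt_trichotomy m n with h | h | h
        · right; exact ⟨hm.1, h⟩
        · left; exact h
        · exact absurd h hm.2
      refine (sum_le_sum_of_subset_of_nonneg e3 fun m _ _ => hf0 m).trans ?_
      rw [sum_insert (by rw [mem_filter]; intro h; exact lt_irrefl _ h.2)]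
      linarith
    linarith
  have h4 : f n = 1 := by
    rw [hf]
    simp
  rw [h4] at h3
  have e : 16 * (n : ℝ) / T = 2 * (4 * n / T) + 2 * (4 * n / T) := by ring
  rw [e]
  rw [hf] at h3 h1 h2
  linarith

end H479.P
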