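import Pool.Agent.H479.P.DP

open Finset MeasureTheory Complex

namespace H479.P

open H479.U H343.ZSide

lemma re_half (RH : RiemannHypothesis) {T : ℝ} {s : ℂ} (hs : s ∈ Z0 T) : s.re = 1 / 2 := by
  obtain ⟨h1, h2, h3, h4, h5⟩ := mem_Z0.1 hs
  refine RH s h5 ?_ ?_
  · rintro ⟨n, hn⟩
    rw [hn] at h3
    simp at h3
  · intro h
    rw [h] at h3
    simp at h3

lemma GGb_rh (RH : RiemannHypothesis) (b u t T : ℝ) :
    ‖H343.GGb b u t (Z0 T) mz‖ ≤ Zg T b t := by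
  unfold H343.GGb Zg
  refine norm_sum_le_of_le _ fun s hs => ?_
  have hs' : s = (⟨s.re, s.im⟩ : ℂ) := rfl
  rw [norm_mul, Complex.norm_real, Real.norm_of_nonneg (mz_nonneg s)]
  have h1 : ‖H343.hhb b u t s‖ = Real.exp (-b * (s.im - t) ^ 2 / 2) := by
    conv_lhs => rw [hs']
    rw [H343.norm_hhb, re_half RH hs, ← Real.exp_add]
    congr 1
    ring
  rw [h1]

/-- splitting the mean square -/
lemma J_split_rh (RH : RiemannHypothesis) (b u T L t1 C0 : ℝ) (f : ℝ → ℝ) (hb : 0 < b)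
    (hT : 0 ≤ T) (hL : 0 ≤ L) (ht1 : 0 ≤ t1) (hLT : L ≤ T)
    (hf : Continuous f) (hf0 : ∀ t, 0 ≤ f t)
    (hZ : ∀ t, Zg T b t ≤ C0)
    (hp : ∀ t, t1 ≤ t → t ≤ T - L → ‖H343.GGb b u t (Z0 T) mz‖ ^ 2 ≤ f t) :
    ∫ t : ℝ, ‖H343.GGb b u t (Z0 T) mz‖ ^ 2 ≤
      C0 ^ 2 * (2 * Real.sqrt (Real.pi / b) + t1 + L) + ∫ t in (0 : ℝ)..T, f t := by
  set Q : ℝ := C0 ^ 2 with hQ
  have hQ0 : 0 ≤ Q := by positivity
  have hC0 : 0 ≤ C0 := (Zg_nonneg T b 0).trans (hZ 0)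
  set Ψ : ℝ → ℝ := fun t => Q * (Real.exp (-b * (t - 0) ^ 2) + Real.exp (-b * (t - T) ^ 2) +
    ((Set.Icc 0 t1).indicator (fun _ => (1 : ℝ)) t +
      (Set.Icc (T - L) T).indicator (fun _ => (1 : ℝ)) t)) +
    (Set.Ioc 0 T).indicator f t with hΨ
  have hind : ∀ a c : ℝ, Integrable ((Set.Icc a c).indicator (fun _ => (1 : ℝ))) := by
    intro a c
    rw [integrable_indicator_iff measurableSet_Icc]
    exact integrableOn_const (by simp)
  have hfi : Integrable ((Set.Ioc 0 T).indicator f) := by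
    rw [integrable_indicator_iff measurableSet_Ioc]
    exact (hf.integrableOn_Icc).mono_set Set.Ioc_subset_Icc_self
  have hΨint : Integrable Ψ := by
    simp only [hΨ]
    refine Integrable.add (Integrable.const_mul ?_ _) hfi
    exact ((gauss_int_b b 0 hb).add (gauss_int_b b T hb)).add ((hind _ _).add (hind _ _))
  have hi0 : ∀ a c t : ℝ, 0 ≤ (Set.Icc a c).indicator (fun _ => (1 : ℝ)) t := fun a c t =>
    Set.indicator_nonneg (fun _ _ => zero_le_one) _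
  have hif0 : ∀ t : ℝ, 0 ≤ (Set.Ioc 0 T).indicator f t := fun t =>
    Set.indicator_nonneg (fun t _ => hf0 t) _
  have hcrude : ∀ t, ‖H343.GGb b u t (Z0 T) mz‖ ^ 2 ≤ (Zg T b t) ^ 2 := by
    intro t
    have h1 := GGb_rh RH b u t T
    gcongr
  have hpt : ∀ t, ‖H343.GGb b u t (Z0 T) mz‖ ^ 2 ≤ Ψ t := by
    intro t
    have g1 : 0 ≤ Real.exp (-b * (t - 0) ^ 2) := (Real.exp_pos _).le
    have g2 : 0 ≤ Real.exp (-b * (t - T) ^ 2) := (Real.exp_pos _).le
    have g3 := hi0 0 t1 t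
    have g4 := hi0 (T - L) T t
    have g5 := hif0 t
    have hZ0 := Zg_nonneg T b t
    simp only [hΨ]
    rcases le_or_gt t 0 with h | h
    · -- t ≤ 0
      have h1 := Zg_left b T t hb h
      have h2 : Zg T b t ≤ Real.exp (-b * t ^ 2 / 2) * C0 :=
        h1.trans (mul_le_mul_of_nonneg_left (hZ 0) (Real.exp_pos _).le)
      have h3 : (Zg T b t) ^ 2 ≤ Real.exp (-b * (t - 0) ^ 2) * C0 ^ 2 := by
        calc (Zg T b t) ^ 2 ≤ (Real.exp (-b * t ^ 2 / 2) * C0) ^ 2 := by gcongr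
          _ = Real.exp (-b * (t - 0) ^ 2) * C0 ^ 2 := by
            rw [mul_pow, ← Real.exp_nat_mul]
            congr 2; push_cast; ring
      calc ‖H343.GGb b u t (Z0 T) mz‖ ^ 2 ≤ (Zg T b t) ^ 2 := hcrude t
        _ ≤ Real.exp (-b * (t - 0) ^ 2) * C0 ^ 2 := h3
        _ = Q * Real.exp (-b * (t - 0) ^ 2) := by rw [hQ]; ring
        _ ≤ Q * (Real.exp (-b * (t - 0) ^ 2) + Real.exp (-b * (t - T) ^ 2) +
            ((Set.Icc 0 t1).indicator (fun _ => (1 : ℝ)) t +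
            (Set.Icc (T - L) T).indicator (fun _ => (1 : ℝ)) t)) := by
            apply mul_le_mul_of_nonneg_left _ hQ0; linarith
        _ ≤ _ := by linarith
    rcases le_or_gt T t with h' | h'
    · have h1 := Zg_right b T t hb h'
      have h2 : Zg T b t ≤ Real.exp (-b * (t - T) ^ 2 / 2) * C0 :=
        h1.trans (mul_le_mul_of_nonneg_left (hZ T) (Real.exp_pos _).le)
      have h3 : (Zg T b t) ^ 2 ≤ Real.exp (-b * (t - T) ^ 2) * C0 ^ 2 := by
        calc (Zg T b t) ^ 2 ≤ (Real.exp (-b * (t - T) ^ 2 / 2) * C0) ^ 2 := by gcongr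
          _ = Real.exp (-b * (t - T) ^ 2) * C0 ^ 2 := by
            rw [mul_pow, ← Real.exp_nat_mul]
            congr 2; push_cast; ring
      calc ‖H343.GGb b u t (Z0 T) mz‖ ^ 2 ≤ (Zg T b t) ^ 2 := hcrude t
        _ ≤ Real.exp (-b * (t - T) ^ 2) * C0 ^ 2 := h3
        _ = Q * Real.exp (-b * (t - T) ^ 2) := by rw [hQ]; ring
        _ ≤ Q * (Real.exp (-b * (t - 0) ^ 2) + Real.exp (-b * (t - T) ^ 2) +
            ((Set.Icc 0 t1).indicator (fun _ => (1 : ℝ)) t +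
            (Set.Icc (T - L) T).indicator (fun _ => (1 : ℝ)) t)) := by
            apply mul_le_mul_of_nonneg_left _ hQ0; linarith
        _ ≤ _ := by linarith
    by_cases hm : t ≤ t1 ∨ T - L ≤ t
    · have h4 : 1 ≤ (Set.Icc 0 t1).indicator (fun _ => (1 : ℝ)) t +
          (Set.Icc (T - L) T).indicator (fun _ => (1 : ℝ)) t := by
        rcases hm with h3 | h3
        · rw [Set.indicator_of_mem (Set.mem_Icc.2 ⟨h.le, h3⟩)]; linarith
        · rw [Set.indicator_of_mem (Set.mem_Icc.2 ⟨h3, h'.le⟩)]; linarith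
      have h3 : (Zg T b t) ^ 2 ≤ C0 ^ 2 := by
        have := hZ t
        gcongr
      calc ‖H343.GGb b u t (Z0 T) mz‖ ^ 2 ≤ (Zg T b t) ^ 2 := hcrude t
        _ ≤ C0 ^ 2 := h3
        _ = Q * 1 := by rw [hQ]; ring
        _ ≤ Q * (Real.exp (-b * (t - 0) ^ 2) + Real.exp (-b * (t - T) ^ 2) +
            ((Set.Icc 0 t1).indicator (fun _ => (1 : ℝ)) t +
            (Set.Icc (T - L) T).indicator (fun _ => (1 : ℝ)) t)) := by
            apply mul_le_mul_of_nonneg_left _ hQ0; linarith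
        _ ≤ _ := by linarith
    · push Not at hm
      have h1 := hp t hm.1.le hm.2.le
      rw [Set.indicator_of_mem (Set.mem_Ioc.2 ⟨h, h'.le⟩)]
      have h2 : 0 ≤ Q * (Real.exp (-b * (t - 0) ^ 2) + Real.exp (-b * (t - T) ^ 2) +
            ((Set.Icc 0 t1).indicator (fun _ => (1 : ℝ)) t +
            (Set.Icc (T - L) T).indicator (fun _ => (1 : ℝ)) t)) := by positivity
      linarith
  have hstep : ∫ t : ℝ, ‖H343.GGb b u t (Z0 T) mz‖ ^ 2 ≤ ∫ t, Ψ t :=
    integral_mono (H343.pair_gauss b u hb (Z0 T) mz).1 hΨint hpt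
  refine hstep.trans (le_of_eq ?_)
  simp only [hΨ]
  rw [integral_add, integral_const_mul, integral_add, integral_add, integral_add,
    gauss_val_b, gauss_val_b, integral_indicator measurableSet_Icc,
    integral_indicator measurableSet_Icc, integral_indicator measurableSet_Ioc,
    intervalIntegral.integral_of_le hT]
  · simp only [integral_const, MeasurableSet.univ, measureReal_restrict_apply, Set.univ_inter,
        Real.volume_real_Icc, smul_eq_mul, mul_one]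
    rw [max_eq_left (by linarith), max_eq_left (by linarith)]
    ring
  · exact hind _ _
  · exact hind _ _
  · exact gauss_int_b b 0 hb
  · exact gauss_int_b b T hb
  · exact (gauss_int_b b 0 hb).add (gauss_int_b b T hb)
  · exact (hind _ _).add (hind _ _)
  · exact Integrable.const_mul (((gauss_int_b b 0 hb).add (gauss_int_b b T hb)).add
      ((hind _ _).add (hind _ _))) _
  · exact hfi

/-- the Gaussian pair sum under RH, up to `u = A log T` -/
theorem Pb_rh (RH : RiemannHypothesis) (b A : ℝ) (hb : 0 < b) (hb1 : b ≤ 1) (hA : 0 ≤ A) :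
    ∃ K T0 : ℝ, 0 < K ∧ 10 ≤ T0 ∧ ∀ T : ℝ, T0 ≤ T → ∀ u : ℝ, 0 ≤ u → u ≤ A * Real.log T →
      Pb T b u ≤ K * ((T + Real.exp u) * (u + 1) +
        T * ((Real.log T) ^ 2 * Real.exp (-u ^ 2 / b))) := by
  obtain ⟨C1, T1, hC1, hT1, hpt⟩ := point b (1 / 2) A hb hb1 (by norm_num) hA
  obtain ⟨C0, hC0, hZ⟩ := Zg_le b hb
  obtain ⟨K1, hK1, hms⟩ := PPb_ms2 b hb hb1
  obtain ⟨sq, hsq⟩ : ∃ sq : ℝ, sq = 1 / Real.sqrt (2 * Real.pi * b) := ⟨_, rfl⟩
  have hsq0 : 0 ≤ sq := by rw [hsq]; positivity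
  rw [← hsq] at hpt
  obtain ⟨r, hr⟩ : ∃ r : ℝ, r = Real.sqrt (b / Real.pi) := ⟨_, rfl⟩
  have hr0 : 0 ≤ r := by rw [hr]; exact Real.sqrt_nonneg _
  obtain ⟨c2, hc2⟩ : ∃ c : ℝ, c = 2 * Real.sqrt (Real.pi / b) := ⟨_, rfl⟩
  have ev : ∀ᶠ T : ℝ in Filter.atTop,
      (C0 * Real.log T) ^ 2 * (c2 + T ^ (1 / 2 : ℝ) + Real.log T) ≤ T := by
    have h1 : (fun T : ℝ => (C0 * Real.log T) ^ 2 * (c2 + T ^ (1 / 2 : ℝ) + Real.log T))
        =o[Filter.atTop] fun T : ℝ => T := by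
      have e1 : (fun T : ℝ => T) =ᶠ[Filter.atTop]
          fun T : ℝ => (T ^ (1 / 8 : ℝ)) ^ 2 * T ^ (3 / 4 : ℝ) := by
        filter_upwards [Filter.eventually_gt_atTop 0] with T hT
        rw [← Real.rpow_natCast, ← Real.rpow_mul hT.le, ← Real.rpow_add hT]
        norm_num
      refine Asymptotics.IsLittleO.trans_eventuallyEq ?_ e1.symm
      refine Asymptotics.IsLittleO.mul ?_ ?_
      · exact ((isLittleO_log_rpow_atTop (by norm_num : (0 : ℝ) < 1 / 8)).const_mul_left C0).pow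
          (by norm_num)
      · refine Asymptotics.IsLittleO.add (Asymptotics.IsLittleO.add ?_ ?_) ?_
        · rw [Asymptotics.isLittleO_const_left]
          right
          exact tendsto_norm_atTop_atTop.comp (tendsto_rpow_atTop (by norm_num))
        · have h5 : (fun _ : ℝ => (1 : ℝ)) =o[Filter.atTop] fun T : ℝ => T ^ (1 / 4 : ℝ) := by
            rw [Asymptotics.isLittleO_const_left]
            right
            exact tendsto_norm_atTop_atTop.comp (tendsto_rpow_atTop (by norm_num))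
          have h6 := h5.mul_isBigO (Asymptotics.isBigO_refl (fun T : ℝ => T ^ (1 / 2 : ℝ))
            Filter.atTop)
          refine (h6.congr_left fun T => by rw [one_mul]).trans_eventuallyEq ?_
          filter_upwards [Filter.eventually_gt_atTop 0] with T hT
          rw [← Real.rpow_add hT]
          norm_num
        · exact isLittleO_log_rpow_atTop (by norm_num)
    have h3 := h1.bound (show (0 : ℝ) < 1 by norm_num)
    filter_upwards [h3, Filter.eventually_ge_atTop 0] with T hT hT1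
    rw [one_mul, Real.norm_of_nonneg hT1] at hT
    exact (le_abs_self _).trans hT
  obtain ⟨T2, hT2⟩ := ev.exists_forall_of_atTop
  obtain ⟨K, hK⟩ : ∃ K : ℝ, K = r * (1 + 3 * (sq ^ 2 * K1 + C1 ^ 2 + sq ^ 2)) + 1 := ⟨_, rfl⟩
  have hK0 : 0 < K := by rw [hK]; positivity
  refine ⟨K, max (max T1 T2) 10, hK0, le_max_right _ _, fun T hT u hu hu1 => ?_⟩
  have hTT1 : T1 ≤ T := ((le_max_left _ _).trans (le_max_left _ _)).trans hT
  have hTT2 : T2 ≤ T := ((le_max_right _ _).trans (le_max_left _ _)).trans hT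
  have hT10 : 10 ≤ T := (le_max_right _ _).trans hT
  have hT0 : 0 < T := by linarith
  have hbd := hT2 T hTT2
  have hpt' := hpt T hTT1 u
  obtain ⟨L, hL⟩ : ∃ L : ℝ, L = Real.log T := ⟨_, rfl⟩
  have hL1 : 1 ≤ L := by
    rw [hL, Real.le_log_iff_exp_le hT0]
    have := Real.exp_one_lt_d9
    linarith
  have hLT : L ≤ T := by
    have := Real.log_le_sub_one_of_pos hT0
    linarith
  have hZ'' : ∀ t, Zg T b t ≤ C0 * L := fun t => by rw [hL]; exact hZ T t hT10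
  rw [← hL] at hpt' hu1 hbd ⊢
  obtain ⟨e0, he0⟩ : ∃ e0 : ℝ, e0 = Real.exp (-u ^ 2 / (2 * b)) := ⟨_, rfl⟩
  have he00 : 0 < e0 := by rw [he0]; exact Real.exp_pos _
  have he02 : e0 ^ 2 = Real.exp (-u ^ 2 / b) := by
    rw [he0, ← Real.exp_nat_mul]
    congr 1
    push_cast
    field_simp
  rw [← he0] at hpt'
  have hPc := PPb_cont b u hb hb1
  obtain ⟨f, hf⟩ : ∃ f : ℝ → ℝ, f = fun t => 3 * (sq ^ 2 * ‖H343.PPb b La u t‖ ^ 2) +
    3 * (C1 ^ 2 + sq ^ 2 * (L ^ 2 * e0 ^ 2)) := ⟨_, rfl⟩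
  have hfc : Continuous f := by
    rw [hf]
    exact (continuous_const.mul (continuous_const.mul (hPc.norm.pow 2))).add continuous_const
  have hf0 : ∀ t, 0 ≤ f t := fun t => by rw [hf]; positivity
  have hJ := J_split_rh RH b u T L (T ^ (1 / 2 : ℝ)) (C0 * L) f hb hT0.le (by linarith)
    (by positivity) hLT hfc hf0 hZ'' (fun t ht1 ht2 => by
      have h1 := hpt' t hu hu1 ht1 ht2
      have h2 : ‖H343.GGb b u t (Z0 T) mz‖ ^ 2 ≤ (sq * (L * e0 + ‖H343.PPb b La u t‖) + C1) ^ 2 := by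
        gcongr
      rw [hf]
      refine h2.trans ?_
      simp only
      nlinarith [sq_nonneg (sq * (L * e0) - sq * ‖H343.PPb b La u t‖),
        sq_nonneg (sq * (L * e0) - C1), sq_nonneg (sq * ‖H343.PPb b La u t‖ - C1)])
  rw [← hc2] at hJ
  have hintf : ∫ t in (0 : ℝ)..T, f t = 3 * (sq ^ 2 * ∫ t in (0 : ℝ)..T, ‖H343.PPb b La u t‖ ^ 2) +
      T * (3 * (C1 ^ 2 + sq ^ 2 * (L ^ 2 * e0 ^ 2))) := by
    simp only [hf]
    rw [intervalIntegral.integral_add, intervalIntegral.integral_const,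
      intervalIntegral.integral_const_mul, intervalIntegral.integral_const_mul, smul_eq_mul,
      sub_zero]
    · exact (continuous_const.mul (continuous_const.mul (hPc.norm.pow 2))).intervalIntegrable _ _
    · exact continuous_const.intervalIntegrable _ _
  rw [hintf] at hJ
  have hM := hms T (by linarith) u hu
  rw [Pb_eq T b u hb, ← hr, ← he02]
  obtain ⟨Y, hY⟩ : ∃ Y : ℝ, Y = (T + Real.exp u) * (u + 1) := ⟨_, rfl⟩
  have hE : 0 < Real.exp u := Real.exp_pos u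
  have hYT : T ≤ Y := by
    rw [hY]
    nlinarith
  obtain ⟨Z, hZd⟩ : ∃ Z : ℝ, Z = T * (L ^ 2 * e0 ^ 2) := ⟨_, rfl⟩
  have hZ0 : 0 ≤ Z := by rw [hZd]; positivity
  rw [← hY] at hM ⊢
  rw [← hZd]
  have hJ2 : ∫ t : ℝ, ‖H343.GGb b u t (Z0 T) mz‖ ^ 2 ≤
      Y + 3 * (sq ^ 2 * (K1 * Y)) + 3 * (C1 ^ 2 * Y) + 3 * sq ^ 2 * Z := by
    have h3 : 3 * (sq ^ 2 * ∫ t in (0 : ℝ)..T, ‖H343.PPb b La u t‖ ^ 2) ≤
        3 * (sq ^ 2 * (K1 * Y)) := by gcongr
    have h4 : T * (3 * (C1 ^ 2 + sq ^ 2 * (L ^ 2 * e0 ^ 2))) = 3 * (C1 ^ 2 * T) +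
        3 * sq ^ 2 * Z := by rw [hZd]; ring
    have h5 : 3 * (C1 ^ 2 * T) ≤ 3 * (C1 ^ 2 * Y) := by gcongr
    linarith
  calc r * (∫ t : ℝ, ‖H343.GGb b u t (Z0 T) mz‖ ^ 2) ≤
      r * (Y + 3 * (sq ^ 2 * (K1 * Y)) + 3 * (C1 ^ 2 * Y) + 3 * sq ^ 2 * Z) :=
        mul_le_mul_of_nonneg_left hJ2 hr0
    _ ≤ K * (Y + Z) := by
        rw [hK]
        have hY0 : 0 ≤ Y := by linarith
        have h6 : 0 ≤ r * (3 * (sq ^ 2) * Y) := by positivity
        have h7 : 0 ≤ r * (1 + 3 * (sq ^ 2 * K1 + C1 ^ 2)) * Z := by positivity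
        nlinarith

end H479.P
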