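import Pool.Agent.H479.P.TA

open MeasureTheory Filter Topology

namespace H479.P

open H479.U hiding mz_nonneg
open Pool.Agent.Y744 TH803TW

/-- passage to the limit in the integrals, along a filter -/
lemma lim_int' {A : ℝ → ℝ → ℝ} {T0 C : ℝ} (hmono : ∀ T, T0 ≤ T → Monotone (A T))
    (hb : ∀ T, T0 ≤ T → ∀ y, |A T y| ≤ C * (1 + y ^ 2)) {w : ℝ → ℝ} (hw : Measurable w) {D : ℝ}
    (hwd : ∀ y, |w y| ≤ D / (1 + y ^ 2) ^ 2) {I : ℝ} {l : Filter ℝ}
    (hI : Tendsto (fun T => ∫ y, A T y * w y) l (𝓝 I)) {u : Filter ℝ} [NeBot u]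
    (hu : u ≤ atTop) (hul : u ≤ l) {A' : ℝ → ℝ} (hA' : Monotone A')
    (hlim : ∀ y, Tendsto (fun T => A T y) u (𝓝 (A' y))) : ∫ y, A' y * w y = I := by
  have hC : 0 ≤ C := by
    have := (abs_nonneg _).trans (hb T0 le_rfl 0)
    simpa using this
  set q : ℕ → ℝ := TopologicalSpace.denseSeq ℝ with hq
  have hqd : DenseRange q := TopologicalSpace.denseRange_denseSeq ℝ
  have hex : ∀ n : ℕ, ∃ T : ℝ, (max (n : ℝ) T0 ≤ T ∧
      ∀ j ∈ Finset.range (n + 1), |A T (q j) - A' (q j)| < 1 / ((n : ℝ) + 1)) ∧
      |(∫ y, A T y * w y) - I| < 1 / ((n : ℝ) + 1) := by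
    intro n
    have h1 : ∀ᶠ T in u, max (n : ℝ) T0 ≤ T := hu (eventually_ge_atTop _)
    have h2 : ∀ᶠ T in u, ∀ j ∈ Finset.range (n + 1), |A T (q j) - A' (q j)| < 1 / ((n : ℝ) + 1) := by
      rw [Filter.eventually_all_finset]
      intro j _
      have := (Metric.tendsto_nhds.1 (hlim (q j))) (1 / ((n : ℝ) + 1)) (by positivity)
      simpa [Real.dist_eq] using this
    have h3 : ∀ᶠ T in u, |(∫ y, A T y * w y) - I| < 1 / ((n : ℝ) + 1) := by
      have := (Metric.tendsto_nhds.1 (hI.mono_left hul)) (1 / ((n : ℝ) + 1)) (by positivity)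
      simpa [Real.dist_eq] using this
    exact ((h1.and h2).and h3).exists
  choose t ht using hex
  have ht1 : ∀ n : ℕ, max (n : ℝ) T0 ≤ t n := fun n => (ht n).1.1
  have ht2 : ∀ n : ℕ, ∀ j ∈ Finset.range (n + 1),
    |A (t n) (q j) - A' (q j)| < 1 / ((n : ℝ) + 1) := fun n => (ht n).1.2
  have htT : ∀ n : ℕ, T0 ≤ t n := fun n => (le_max_right _ _).trans (ht1 n)
  have hz : Tendsto (fun n : ℕ => 1 / ((n : ℝ) + 1)) atTop (𝓝 0) :=
    tendsto_one_div_add_atTop_nhds_zero_nat
  have hj : ∀ j, Tendsto (fun n => A (t n) (q j)) atTop (𝓝 (A' (q j))) := by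
    intro j
    rw [Metric.tendsto_nhds]
    intro ε hε
    have h1 : ∀ᶠ n : ℕ in atTop, 1 / ((n : ℝ) + 1) < ε := (tendsto_order.1 hz).2 ε hε
    filter_upwards [h1, eventually_ge_atTop j] with n hn hnj
    rw [Real.dist_eq]
    exact (ht2 n j (Finset.mem_range.2 (by omega))).trans hn
  have hcont : ∀ x, ContinuousAt A' x → Tendsto (fun n => A (t n) x) atTop (𝓝 (A' x)) := by
    intro x hx
    rw [tendsto_order]
    constructor
    · intro a ha
      have h1 : ∀ᶠ y in 𝓝 x, a < A' y := hx.eventually_const_lt ha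
      obtain ⟨δ, hδ, h2⟩ := Metric.eventually_nhds_iff.1 h1
      obtain ⟨_, ⟨j, rfl⟩, hj1, hj2⟩ := hqd.exists_between (show x - δ < x by linarith)
      have h3 : a < A' (q j) := h2 (by rw [Real.dist_eq, abs_lt]; constructor <;> linarith)
      filter_upwards [(tendsto_order.1 (hj j)).1 a h3] with n hn
      exact hn.trans_le (hmono _ (htT n) hj2.le)
    · intro a ha
      have h1 : ∀ᶠ y in 𝓝 x, A' y < a := hx.eventually_lt_const ha
      obtain ⟨δ, hδ, h2⟩ := Metric.eventually_nhds_iff.1 h1
      obtain ⟨_, ⟨j, rfl⟩, hj1, hj2⟩ := hqd.exists_between (show x < x + δ by linarith)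
      have h3 : A' (q j) < a := h2 (by rw [Real.dist_eq, abs_lt]; constructor <;> linarith)
      filter_upwards [(tendsto_order.1 (hj j)).2 a h3] with n hn
      exact (hmono _ (htT n) hj1.le).trans_lt hn
  have hae : ∀ᵐ x, ContinuousAt A' x := by
    have := hA'.countable_not_continuousAt
    exact this.ae_notMem volume |>.mono fun x hx => by
      by_contra hc
      exact hx hc
  have hD : Integrable fun y : ℝ => C * D * (1 + y ^ 2)⁻¹ :=
    integrable_inv_one_add_sq.const_mul _
  have h1 : Tendsto (fun n => ∫ y, A (t n) y * w y) atTop (𝓝 (∫ y, A' y * w y)) := by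
    refine tendsto_integral_of_dominated_convergence _ (fun n => ?_) hD (fun n => ?_) ?_
    · exact ((hmono _ (htT n)).measurable.mul hw).aestronglyMeasurable
    · refine Eventually.of_forall fun y => ?_
      rw [Real.norm_eq_abs, abs_mul]
      have h1 : 0 < 1 + y ^ 2 := by positivity
      calc |A (t n) y| * |w y| ≤ (C * (1 + y ^ 2)) * (D / (1 + y ^ 2) ^ 2) := by
            gcongr
            · exact hb _ (htT n) y
            · exact hwd y
        _ = C * D * (1 + y ^ 2)⁻¹ := by field_simp
    · filter_upwards [hae] with x hx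
      exact (hcont x hx).mul_const _
  have h2 : Tendsto (fun n => ∫ y, A (t n) y * w y) atTop (𝓝 I) := by
    rw [Metric.tendsto_nhds]
    intro ε hε
    filter_upwards [(tendsto_order.1 hz).2 ε hε] with n hn
    rw [Real.dist_eq]
    exact (ht n).2.trans hn
  exact tendsto_nhds_unique h1 h2

section

open scoped FourierTransform

/-- a function with vanishing cosine transforms against all test functions vanishes -/
lemma band_zero {H : ℝ → ℝ} {B : ℝ} (hm : Measurable H) (he : ∀ y, H (-y) = H y)
    (hb : ∀ y, |H y| ≤ B * (1 + y ^ 2)) (hc : ∀ᵐ y, ContinuousAt H y)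
    (h0 : ∀ (κ : ℝ) (K : ℝ → ℝ), TK κ K → ∫ y, H y * ct K y = 0) : ∀ᵐ y, H y = 0 := by
  have hB : 0 ≤ B := by
    have := (abs_nonneg _).trans (hb 0)
    simpa using this
  obtain ⟨K0, hK0, hpos, hp0, hrest⟩ := exists_pos (κ := 1) one_pos
  -- the dilations
  have key : ∀ ε : ℝ, 0 < ε → ∀ᵐ y, H y * ct K0 (ε * y) = 0 := by
    intro ε hε
    obtain ⟨K, hK, hKct⟩ : ∃ K : ℝ → ℝ, TK (ε * 1) K ∧ ∀ y, ct K y = ct K0 (ε * y) := by
      refine ⟨_, hK0.dil hε, fun y => ?_⟩
      exact TK.ct_dil K0 hε y
    obtain ⟨D, hD0, hD⟩ := hK.decay 2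
    obtain ⟨f, hf⟩ : ∃ f : ℝ → ℝ, f = fun y => H y * ct K y := ⟨_, rfl⟩
    have hfm : AEStronglyMeasurable f volume := by
      rw [hf]
      exact (hm.mul hK.ct_cont.measurable).aestronglyMeasurable
    have hfi : Integrable f := by
      refine (integrable_inv_one_add_sq.const_mul (B * D)).mono' hfm
        (Eventually.of_forall fun y => ?_)
      rw [hf, Real.norm_eq_abs, abs_mul]
      calc |H y| * |ct K y| ≤ (B * (1 + y ^ 2)) * (D / (1 + y ^ 2) ^ 2) := by
            gcongr
            · exact hb y
            · exact hD y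
        _ = B * D * (1 + y ^ 2)⁻¹ := by field_simp
    have hfe : ∀ y, f (-y) = f y := by
      intro y
      rw [hf]
      simp only
      rw [he, TK.ct_neg]
    have hcos : ∀ s : ℝ, ∫ y, f y * Real.cos (2 * Real.pi * s * y) = 0 := by
      intro s
      have h1 := h0 _ _ (hK.modul s)
      rw [← h1]
      refine integral_congr_ae (Eventually.of_forall fun y => ?_)
      simp only [hf]
      rw [hK.ct_modul s y]
      ring
    obtain ⟨fc, hfc⟩ : ∃ fc : ℝ → ℂ, fc = fun y => (f y : ℂ) := ⟨_, rfl⟩
    have hfci : Integrable fc := by rw [hfc]; exact hfi.ofReal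
    have hF : 𝓕 fc = fun _ => 0 := by
      funext x
      rw [Real.fourier_real_eq_integral_exp_smul]
      set G : ℝ → ℂ := fun v => Complex.exp (↑(-2 * Real.pi * v * x) * Complex.I) • fc v with hG
      have hGi : Integrable G := by
        refine hfci.norm.mono' ?_ (Filter.Eventually.of_forall fun v => ?_)
        · simp only [hG]
          have h1 : Continuous fun v : ℝ => Complex.exp (↑(-2 * Real.pi * v * x) * Complex.I) := by
            fun_prop
          exact h1.aestronglyMeasurable.smul hfci.aestronglyMeasurable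
        · simp only [hG]
          rw [norm_smul, Complex.norm_exp_ofReal_mul_I, one_mul]
      have h1 : ∫ v, G (-v) = ∫ v, G v := integral_neg_eq_self G volume
      have h2 : ∫ v, G v = ∫ v, (G v + G (-v)) / 2 := by
        rw [integral_div, integral_add hGi hGi.comp_neg, h1]
        ring
      show ∫ v, G v = 0
      have h3 : ((∫ y, f y * Real.cos (2 * Real.pi * x * y) : ℝ) : ℂ) =
          ∫ y, ((f y * Real.cos (2 * Real.pi * x * y) : ℝ) : ℂ) := integral_ofReal.symm
      rw [hcos x] at h3
      rw [h2, ← Complex.ofReal_zero, h3]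
      refine integral_congr_ae (Filter.Eventually.of_forall fun v => ?_)
      simp only [hG, hfc, smul_eq_mul]
      rw [hfe]
      push_cast
      rw [Complex.cos]
      have e1 : Complex.exp (-2 * (Real.pi : ℂ) * v * x * Complex.I) =
          Complex.exp (-(2 * (Real.pi : ℂ) * x * v) * Complex.I) := by
        congr 1; ring
      have e2 : Complex.exp (-2 * (Real.pi : ℂ) * (-v) * x * Complex.I) =
          Complex.exp ((2 * (Real.pi : ℂ) * x * v) * Complex.I) := by
        congr 1; ring
      rw [e1, e2]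
      ring
    have hFi : Integrable (𝓕 fc) := by rw [hF]; exact integrable_zero _ _ _
    filter_upwards [hc] with y hy
    have hfcy : ContinuousAt fc y := by
      rw [hfc, hf]
      exact Complex.continuous_ofReal.continuousAt.comp (hy.mul hK.ct_cont.continuousAt)
    have hinv := hfci.fourierInv_fourier_eq hFi (v := y) hfcy
    rw [hF, Real.fourierInv_eq'] at hinv
    simp only [smul_zero, integral_zero] at hinv
    rw [hfc] at hinv
    have h5 : f y = 0 := by
      have h6 : ((f y : ℝ) : ℂ) = 0 := hinv.symm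
      exact_mod_cast h6
    rw [hf] at h5
    simp only at h5
    rw [hKct] at h5
    exact h5
  -- positivity near `0`
  have hpos0 : ∀ᶠ z in 𝓝 (0 : ℝ), 0 < ct K0 z := hK0.ct_cont.continuousAt.eventually_const_lt hp0
  have hall : ∀ᵐ y, ∀ n : ℕ, H y * ct K0 (1 / ((n : ℝ) + 1) * y) = 0 := by
    rw [ae_all_iff]
    intro n
    exact key _ (by positivity)
  filter_upwards [hall] with y hy
  have h1 : Tendsto (fun n : ℕ => 1 / ((n : ℝ) + 1) * y) atTop (𝓝 (0 * y)) :=
    tendsto_one_div_add_atTop_nhds_zero_nat.mul_const y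
  rw [zero_mul] at h1
  obtain ⟨n, hn⟩ := (h1.eventually hpos0).exists
  exact (mul_eq_zero.1 (hy n)).resolve_right hn.ne'

end

/-- **the rigidity theorem**: the test functions of every bandwidth determine the limit -/
theorem rig (RH : RiemannHypothesis) {l : Filter ℝ} (hl : l ≤ atTop)
    (hT : ∀ (κ : ℝ) (K : ℝ → ℝ) (h : ℝ), TK κ K → 0 < h →
      Tendsto (fun T => Q2 (fav K h) T (Real.log T) / Xf T) l (𝓝 (Lam (Kav K h)))) (x : ℝ) :
    Tendsto (fun T => Aa T x) l (𝓝 (AG x)) := by
  obtain ⟨C0, T0, hT0, hb⟩ := Aa_bound RH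
  rw [tendsto_iff_ultrafilter]
  intro g hg
  have hgt : (g : Filter ℝ) ≤ atTop := hg.trans hl
  have hTg : ∀ᶠ T in (g : Filter ℝ), T0 ≤ T := hgt (eventually_ge_atTop _)
  have hmono : ∀ T, T0 ≤ T → Monotone (Aa T) := fun T hT => Aa_mono (by linarith)
  have hex : ∀ y, ∃ L, Tendsto (fun T => Aa T y) (g : Filter ℝ) (𝓝 L) := by
    intro y
    have h1 : ((g.map fun T => Aa T y : Ultrafilter ℝ) : Filter ℝ) ≤
        𝓟 (Set.Icc (-(C0 * (1 + y ^ 2))) (C0 * (1 + y ^ 2))) := by
      rw [le_principal_iff]
      have h2 : ∀ᶠ T in (g : Filter ℝ), Aa T y ∈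
          Set.Icc (-(C0 * (1 + y ^ 2))) (C0 * (1 + y ^ 2)) := by
        filter_upwards [hTg] with T hT1
        exact abs_le.1 (hb T hT1 y)
      exact h2
    obtain ⟨L, _, hL⟩ := isCompact_Icc.ultrafilter_le_nhds _ h1
    exact ⟨L, hL⟩
  choose A' hlim using hex
  have hA' : Monotone A' := by
    intro a b hab
    refine le_of_tendsto_of_tendsto (hlim a) (hlim b) ?_
    filter_upwards [hTg] with T hT1 using hmono T hT1 hab
  have hneg' : ∀ y, y < 0 → A' y = 0 := by
    intro y hy
    refine tendsto_nhds_unique (hlim y) ?_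
    have : (fun T => Aa T y) = fun _ => 0 := funext fun T => Aa_neg T y hy
    rw [this]
    exact tendsto_const_nhds
  have hb' : ∀ y, |A' y| ≤ C0 * (1 + y ^ 2) := by
    intro y
    refine le_of_tendsto (hlim y).abs ?_
    filter_upwards [hTg] with T hT1 using hb T hT1 y
  have h0 : 1 ≤ A' 0 := by
    refine le_of_forall_pos_le_add fun ε hε => ?_
    have h1 : ∀ᶠ T in (g : Filter ℝ), 1 - ε ≤ Aa T 0 := hgt (Aa_diag hε)
    have h2 := ge_of_tendsto (hlim 0) h1
    linarith
  -- the integrals
  have hm : ∀ (κ : ℝ) (K : ℝ → ℝ), TK κ K → ∀ h, 0 < h →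
      ∫ y, A' y * (ct K (y + h) - ct K (y - h)) = ∫ y, AG y * (ct K (y + h) - ct K (y - h)) := by
    intro κ K hK h hh
    obtain ⟨D, hD⟩ := test_decay hK h
    have hw : Measurable fun y => ct K (y + h) - ct K (y - h) :=
      ((hK.ct_cont.comp (by fun_prop)).sub (hK.ct_cont.comp (by fun_prop))).measurable
    refine lim_int' hmono hb hw hD (l := l) ?_ hgt hg hA' hlim
    rw [AG_Lam hK hh]
    refine (hT κ K h hK hh).neg.congr fun T => ?_
    rw [Aa_int hK hh, div_eq_inv_mul]
  -- periodicity
  have hper : ∀ p : ℝ, 0 < p → ∀ᵐ x, dE A' (x + p) = dE A' x := by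
    intro p hp
    obtain ⟨h, hhd⟩ : ∃ h : ℝ, h = p / 2 := ⟨_, rfl⟩
    have hh : 0 < h := by rw [hhd]; positivity
    have hEm := dE_meas hA'
    have hEb := dE_bound hb'
    have hC0 : 0 ≤ C0 := by
      have := (abs_nonneg _).trans (hb' 0)
      simpa using this
    have hEc : ({y : ℝ | ¬ ContinuousAt (dE A') y}).Countable := by
      have h1 : {y : ℝ | ¬ ContinuousAt (dE A') y} ⊆ {y | ¬ ContinuousAt A' y} ∪
          ((fun y => -y) '' {y | ¬ ContinuousAt A' y}) ∪ {0} := by
        intro y hy
        by_contra hcon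
        simp only [Set.mem_union, Set.mem_ofPred_eq, Set.mem_image, Set.mem_singleton_iff,
          not_or, not_not, not_exists, not_and] at hcon
        obtain ⟨⟨c1, c2⟩, c3⟩ := hcon
        apply hy
        have c2' : ContinuousAt A' (-y) := by
          by_contra hc
          exact c2 (-y) hc (neg_neg y)
        have hAG : ∀ z : ℝ, z ≠ 0 → ContinuousAt AG z := by
          intro z hz
          rcases lt_or_gt_of_ne hz with h | h
          · have : AG =ᶠ[𝓝 z] fun _ => 0 := by
              filter_upwards [gt_mem_nhds h] with v hv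
              unfold AG
              rw [if_pos hv]
            exact continuousAt_const.congr this.symm
          · have : AG =ᶠ[𝓝 z] fun x => 1 + 2 * gp x := by
              filter_upwards [lt_mem_nhds h] with v hv
              unfold AG
              rw [if_neg (by linarith)]
            exact (continuousAt_const.add
              (continuousAt_const.mul gp_cont.continuousAt)).congr this.symm
        have hn : ContinuousAt (fun x : ℝ => -x) y := continuous_neg.continuousAt
        have d1 : ContinuousAt (fun x => A' (-x)) y := by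
          have : ContinuousAt (A' ∘ fun x => -x) y := ContinuousAt.comp (by exact c2') hn
          exact this
        have d2 : ContinuousAt (fun x => AG (-x)) y := by
          have : ContinuousAt (AG ∘ fun x => -x) y :=
            ContinuousAt.comp (by exact hAG (-y) (neg_ne_zero.2 c3)) hn
          exact this
        have d3 : ContinuousAt (fun x => (A' x - AG x) - (A' (-x) - AG (-x))) y :=
          (c1.sub (hAG y c3)).sub (d1.sub d2)
        exact d3
      exact ((hA'.countable_not_continuousAt.union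
        (hA'.countable_not_continuousAt.image _)).union (Set.countable_singleton 0)).mono h1
    have hE := band_zero (H := fun y => dE A' (y + h) - dE A' (y - h))
      (B := (2 * C0 + 4) * (4 * (1 + h ^ 2)))
      ((hEm.comp (by fun_prop)).sub (hEm.comp (by fun_prop))) (fun y => by
        have a1 : dE A' (-y + h) = -dE A' (y - h) := by
          rw [← dE_odd]
          congr 1
          ring
        have a2 : dE A' (-y - h) = -dE A' (y + h) := by
          rw [← dE_odd]
          congr 1
          ring
        rw [a1, a2]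
        ring) (fun y => by
        refine (abs_sub _ _).trans ?_
        have h1 := hEb (y + h)
        have h2 := hEb (y - h)
        have h3 : 1 + (y + h) ^ 2 ≤ 2 * (1 + h ^ 2) * (1 + y ^ 2) := by
          nlinarith [sq_nonneg (y - h), sq_nonneg (y * h), sq_nonneg y, sq_nonneg h]
        have h4 : 1 + (y - h) ^ 2 ≤ 2 * (1 + h ^ 2) * (1 + y ^ 2) := by
          nlinarith [sq_nonneg (y + h), sq_nonneg (y * h), sq_nonneg y, sq_nonneg h]
        have h5 : (2 * C0 + 4) * (1 + (y + h) ^ 2) ≤
            (2 * C0 + 4) * (2 * (1 + h ^ 2) * (1 + y ^ 2)) :=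
          mul_le_mul_of_nonneg_left h3 (by positivity)
        have h6 : (2 * C0 + 4) * (1 + (y - h) ^ 2) ≤
            (2 * C0 + 4) * (2 * (1 + h ^ 2) * (1 + y ^ 2)) :=
          mul_le_mul_of_nonneg_left h4 (by positivity)
        linarith) ?_ (fun κ K hK => annih hK hA' hb' h (hm κ K hK h hh))
    · have h2 := (measurePreserving_add_right (volume : Measure ℝ) h).quasiMeasurePreserving.ae hE
      filter_upwards [h2] with x hx
      have e1 : x + h + h = x + p := by rw [hhd]; ring
      have e2 : x + h - h = x := by ring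
      have hx' : dE A' (x + h + h) - dE A' (x + h - h) = 0 := hx
      rw [e1, e2] at hx'
      linarith
    · have h1 : ({y : ℝ | ¬ ContinuousAt (fun y => dE A' (y + h) - dE A' (y - h)) y}).Countable := by
        refine ((hEc.image (fun y => y - h)).union (hEc.image (fun y => y + h))).mono fun y hy => ?_
        by_contra hcon
        simp only [Set.mem_union, Set.mem_image, Set.mem_ofPred_eq, not_or, not_exists,
          not_and] at hcon
        obtain ⟨c1, c2⟩ := hcon
        apply hy
        have d1 : ContinuousAt (dE A') (y + h) := by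
          by_contra hc
          exact c1 (y + h) hc (by ring)
        have d2 : ContinuousAt (dE A') (y - h) := by
          by_contra hc
          exact c2 (y - h) hc (by ring)
        have f1 : ContinuousAt (dE A' ∘ fun y => y + h) y :=
          ContinuousAt.comp (by exact d1) (by fun_prop)
        have f2 : ContinuousAt (dE A' ∘ fun y => y - h) y :=
          ContinuousAt.comp (by exact d2) (by fun_prop)
        exact f1.sub f2
      exact h1.ae_notMem volume |>.mono fun x hx => by
        by_contra hc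
        exact hx hc
  have hirr : Irrational (Real.sqrt 2 / 1) := by
    rw [div_one]
    exact irrational_sqrt_two
  have := limit_eq hA' hneg' hb' h0 hirr (hper (Real.sqrt 2) (by positivity)) (hper 1 one_pos) x
  rw [← this]
  exact hlim x

end H479.P
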