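import Pool.Agent.H479.P.Mono
import Pool.Graph.R_pool_sql_team_seeded_1acbe0a2.Y744.ANC.Fin

open MeasureTheory Filter Topology

namespace H479.P

open H479.U hiding mz_nonneg
open Pool.Agent.Y744 TH803TW

/-- Montgomery's weight -/
noncomputable def wgt (v : ℝ) : ℝ := 4 / (4 + v ^ 2)

lemma wgt_nonneg (v : ℝ) : 0 ≤ wgt v := by unfold wgt; positivity

lemma wgt_err (v : ℝ) : |1 - wgt v| ≤ v ^ 2 / 4 := by
  unfold wgt
  have h : 1 - 4 / (4 + v ^ 2) = v ^ 2 / (4 + v ^ 2) := by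
    field_simp
    ring
  rw [h, abs_of_nonneg (by positivity)]
  exact div_le_div_of_nonneg_left (sq_nonneg _) (by norm_num) (by nlinarith [sq_nonneg v])

lemma Z0_Zt (T : ℝ) : H343.ZSide.Z0 T = Zt T := rfl

lemma mz_mz (s : ℂ) : H343.ZSide.mz s = mz s := rfl

/-- the pair sum under RH -/
lemma Wp_rh_eq (RH : RiemannHypothesis) (T u : ℝ) : Wp T u = ∑ s ∈ Zt T, ∑ s' ∈ Zt T,
    mz s * mz s' * (Real.cos (u * (s.im - s'.im)) * wgt (s.im - s'.im)) := by
  unfold Wp H343.PPair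
  rw [Complex.re_sum]
  refine Finset.sum_congr rfl fun s hs => ?_
  rw [Complex.re_sum]
  refine Finset.sum_congr rfl fun s' hs' => ?_
  have h1 : s.re = 1 / 2 := re_half RH hs
  have h2 : s'.re = 1 / 2 := re_half RH hs'
  have h3 : s + (starRingEnd ℂ) s' - 1 = ((s.im - s'.im : ℝ) : ℂ) * Complex.I := by
    apply Complex.ext
    · simp [h1, h2]
      norm_num
    · simp
      ring
  rw [h3, Complex.re_ofReal_mul]
  congr 1
  have h4 : H343.kW (((s.im - s'.im : ℝ) : ℂ) * Complex.I) = ((wgt (s.im - s'.im) : ℝ) : ℂ) := by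
    unfold H343.kW wgt
    rw [mul_pow, Complex.I_sq]
    push_cast
    congr 1
    ring
  rw [h4, mul_comm, Complex.re_ofReal_mul, mul_comm,
    show (u : ℂ) * (((s.im - s'.im : ℝ) : ℂ) * Complex.I) =
      ((u * (s.im - s'.im) : ℝ) : ℂ) * Complex.I by push_cast; ring,
    Complex.exp_ofReal_mul_I_re]

lemma Xf_eq (T : ℝ) : T / (2 * Real.pi) * Real.log T = Xf T := by
  unfold Xf
  ring

/-- test functions: continuous, even, of compact support -/
structure CE (κ : ℝ) (R : ℝ → ℝ) : Prop where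
  cont : Continuous R
  even : ∀ x, R (-x) = R x
  supp : ∀ x, κ < |x| → R x = 0

lemma CE.hcs {κ : ℝ} {R : ℝ → ℝ} (h : CE κ R) : HasCompactSupport R := by
  refine HasCompactSupport.intro (isCompact_Icc (a := -κ) (b := κ)) fun x hx => h.supp x ?_
  by_contra hc
  exact hx (abs_le.1 (not_lt.1 hc))

lemma CE.mul_int {κ : ℝ} {R : ℝ → ℝ} (h : CE κ R) {f : ℝ → ℝ} (hf : Continuous f) :
    Integrable fun α => R α * f α :=
  (h.cont.mul hf).integrable_of_hasCompactSupport h.hcs.mul_right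

lemma CE_Kav {κ : ℝ} {K : ℝ → ℝ} (hK : TK κ K) (h : ℝ) : CE κ (Kav K h) :=
  ⟨Kav_cont hK, Kav_even hK, Kav_supp hK⟩

/-- the integral of `F` against a test function -/
lemma F_int (RH : RiemannHypothesis) {κ : ℝ} {R : ℝ → ℝ} (hR : CE κ R) (T : ℝ) :
    ∫ α, R α * Fr T α = (Xf T)⁻¹ * ∑ s ∈ Zt T, ∑ s' ∈ Zt T,
      mz s * mz s' * (wgt (s.im - s'.im) * ct R (dd T s s')) := by
  have e1 : ∀ α, R α * Fr T α = (Xf T)⁻¹ * ∑ s ∈ Zt T, ∑ s' ∈ Zt T,
      mz s * mz s' * (wgt (s.im - s'.im) * (R α * Real.cos (2 * Real.pi * dd T s s' * α))) := by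
    intro α
    unfold Fr
    rw [Xf_eq, Wp_rh_eq RH, div_eq_inv_mul, mul_left_comm, Finset.mul_sum]
    congr 1
    refine Finset.sum_congr rfl fun s _ => ?_
    rw [Finset.mul_sum]
    refine Finset.sum_congr rfl fun s' _ => ?_
    have : α * Real.log T * (s.im - s'.im) = 2 * Real.pi * dd T s s' * α := by
      unfold dd
      have := Real.pi_pos
      field_simp
    rw [this]
    ring
  simp_rw [e1]
  have hi : ∀ x : ℝ, Integrable fun α => R α * Real.cos (2 * Real.pi * x * α) := fun x =>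
    hR.mul_int (by fun_prop)
  rw [integral_const_mul, integral_finsetSum _ fun s _ => integrable_finsetSum _ fun s' _ =>
    ((hi _).const_mul _).const_mul _]
  congr 1
  refine Finset.sum_congr rfl fun s _ => ?_
  rw [integral_finsetSum _ fun s' _ => ((hi _).const_mul _).const_mul _]
  refine Finset.sum_congr rfl fun s' _ => ?_
  rw [integral_const_mul, integral_const_mul]
  rfl

/-- bound for the pair sum -/
lemma pair_bdd (RH : RiemannHypothesis) : ∃ C T0 : ℝ, 0 < C ∧ 20 ≤ T0 ∧ ∀ T : ℝ, T0 ≤ T →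
    ∑ s ∈ Zt T, ∑ s' ∈ Zt T, mz s * mz s' * (1 / (1 + (dd T s s') ^ 2)) ≤ C * Xf T := by
  obtain ⟨C, B0, V0, hC, hB0, hV0, hblk, hloc⟩ := PP_bound RH
  have hpi := Real.pi_pos
  refine ⟨3200 * (B0 + C + 1) * (2 * Real.pi), V0, by positivity, hV0, fun T hT => ?_⟩
  have hT20 : 20 ≤ T := hV0.trans hT
  have hL1 : 1 ≤ Real.log T := by
    rw [Real.le_log_iff_exp_le (by linarith)]
    linarith [Real.exp_one_lt_d9]
  have h1 : ∑ s ∈ Zt T, ∑ s' ∈ Zt T, mz s * mz s' * (1 / (1 + (dd T s s') ^ 2)) =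
      ∑ s ∈ Zt T, ∑ s' ∈ Zt T, mz s * mz s' *
        |(fun x : ℝ => 1 / (1 + x ^ 2)) ((s.im - s'.im) * Real.log T / (2 * Real.pi))| := by
    refine Finset.sum_congr rfl fun s _ => Finset.sum_congr rfl fun s' _ => ?_
    rw [abs_of_nonneg (by positivity)]
    rfl
  rw [h1]
  have h2 := QS_abs_bound (x := fun s : ℂ => s.im) (Zt T) (Zt T) mz_nonneg
    (f := fun x : ℝ => 1 / (1 + x ^ 2)) (K := 1) (fun x => by
      rw [abs_of_nonneg (by positivity)]) (Λ := Real.log T) (by linarith) one_pos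
  have h3 := hloc T hT (Real.log T) le_rfl
  have h4 : B0 ≤ B0 * (T * Real.log T) := by
    have : 1 ≤ T * Real.log T := by nlinarith
    nlinarith
  have h5 : 0 ≤ T * Real.log T := by positivity
  calc _ ≤ 1600 * 1 * (1 * PP1 (Zt T) mz (fun s => s.im) (Real.log T) +
          1 / 1 * PP1 (Zt T) mz (fun s => s.im) (Real.log T)) := h2
    _ ≤ 3200 * ((B0 + C + 1) * (T * Real.log T)) := by linarith
    _ = 3200 * (B0 + C + 1) * (2 * Real.pi) * Xf T := by
        unfold Xf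
        field_simp

/-- the weight is harmless -/
lemma F_err (RH : RiemannHypothesis) : ∃ C T0 : ℝ, 0 < C ∧ 20 ≤ T0 ∧ ∀ T : ℝ, T0 ≤ T →
    ∀ (κ : ℝ) (R : ℝ → ℝ) (D : ℝ), CE κ R → 0 ≤ D → (∀ x, |ct R x| ≤ D / (1 + x ^ 2) ^ 2) →
      |(∫ α, R α * Fr T α) - Q2 (ct R) T (Real.log T) / Xf T| ≤ D * (C / (Real.log T) ^ 2) := by
  obtain ⟨C, T0, hC, hT0, h⟩ := pair_bdd RH
  have hpi := Real.pi_pos
  refine ⟨Real.pi ^ 2 * C, T0, by positivity, hT0, fun T hT κ R D hR hD hdec => ?_⟩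
  have hT20 : 20 ≤ T := hT0.trans hT
  have hL : 0 < Real.log T := Real.log_pos (by linarith)
  have hX := Xf_pos (V := T) (by linarith)
  rw [F_int RH hR T, div_eq_inv_mul, ← mul_sub, abs_mul, abs_of_pos (inv_pos.2 hX),
    inv_mul_le_iff₀ hX]
  unfold Q2 QS
  rw [← Finset.sum_sub_distrib]
  have h1 : |∑ s ∈ Zt T, ((∑ s' ∈ Zt T, mz s * mz s' * (wgt (s.im - s'.im) * ct R (dd T s s'))) -
      ∑ s' ∈ Zt T, mz s * mz s' * ct R ((s.im - s'.im) * Real.log T / (2 * Real.pi)))| ≤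
      ∑ s ∈ Zt T, ∑ s' ∈ Zt T, mz s * mz s' * (1 / (1 + (dd T s s') ^ 2)) *
        (D * (Real.pi ^ 2 / Real.log T ^ 2)) := by
    refine (Finset.abs_sum_le_sum_abs _ _).trans (Finset.sum_le_sum fun s _ => ?_)
    rw [← Finset.sum_sub_distrib]
    refine (Finset.abs_sum_le_sum_abs _ _).trans (Finset.sum_le_sum fun s' _ => ?_)
    have e1 : (s.im - s'.im) * Real.log T / (2 * Real.pi) = dd T s s' := rfl
    rw [e1]
    obtain ⟨x, hx⟩ : ∃ x : ℝ, x = dd T s s' := ⟨_, rfl⟩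
    have e2 : s.im - s'.im = 2 * Real.pi * x / Real.log T := by
      rw [hx]
      unfold dd
      field_simp
    rw [← hx, e2]
    obtain ⟨v, hv⟩ : ∃ v : ℝ, v = 2 * Real.pi * x / Real.log T := ⟨_, rfl⟩
    rw [← hv]
    have hm : 0 ≤ mz s * mz s' := mul_nonneg (mz_nonneg _) (mz_nonneg _)
    have e3 : mz s * mz s' * (wgt v * ct R x) - mz s * mz s' * ct R x =
        -(mz s * mz s' * ((1 - wgt v) * ct R x)) := by ring
    rw [e3, abs_neg, abs_mul, abs_of_nonneg hm, abs_mul, mul_assoc (mz s * mz s')]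
    refine mul_le_mul_of_nonneg_left ?_ hm
    have h2 : v ^ 2 / 4 = x ^ 2 * (Real.pi ^ 2 / Real.log T ^ 2) := by
      rw [hv]
      field_simp
      ring
    calc |1 - wgt v| * |ct R x| ≤ (v ^ 2 / 4) * (D / (1 + x ^ 2) ^ 2) :=
          mul_le_mul (wgt_err v) (hdec x) (abs_nonneg _) (by positivity)
      _ = (x ^ 2 / (1 + x ^ 2)) * (1 / (1 + x ^ 2)) * (D * (Real.pi ^ 2 / Real.log T ^ 2)) := by
          rw [h2]
          field_simp
      _ ≤ 1 * (1 / (1 + x ^ 2)) * (D * (Real.pi ^ 2 / Real.log T ^ 2)) := by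
          have h3 : x ^ 2 / (1 + x ^ 2) ≤ 1 := by
            rw [div_le_one (by positivity)]
            linarith
          gcongr
      _ = _ := by ring
  refine h1.trans ?_
  have e4 : ∑ s ∈ Zt T, ∑ s' ∈ Zt T, mz s * mz s' * (1 / (1 + (dd T s s') ^ 2)) *
        (D * (Real.pi ^ 2 / Real.log T ^ 2)) =
      (∑ s ∈ Zt T, ∑ s' ∈ Zt T, mz s * mz s' * (1 / (1 + (dd T s s') ^ 2))) *
        (D * (Real.pi ^ 2 / Real.log T ^ 2)) := by
    rw [Finset.sum_mul]
    refine Finset.sum_congr rfl fun s _ => ?_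
    rw [Finset.sum_mul]
  rw [e4]
  calc _ ≤ (C * Xf T) * (D * (Real.pi ^ 2 / Real.log T ^ 2)) :=
        mul_le_mul_of_nonneg_right (h T hT) (by positivity)
    _ = _ := by ring

end H479.P
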